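import Mathlib.Tactic.Monotonicity.Lemmas
import Mathlib.Algebra.Order.Ring.Star
import Mathlib.Analysis.Normed.Order.Lattice
import Mathlib.Analysis.SpecificLimits.Basic
import Mathlib.Analysis.RCLike.Basic
import Mathlib.Algebra.Order.Star.Real
import Mathlib.Order.CompletePartialOrder
import Mathlib.Tactic.Algebra.Basic

/-! Means on functions with values in the unit interval, amenable subsets of a group and their
closure properties. -/

namespace Pool.Agent.MP_622d34_al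

open Filter Topology

/-- Functions with values in the unit interval. -/
def U {α : Type*} (f : α → ℝ) : Prop := ∀ x, 0 ≤ f x ∧ f x ≤ 1

theorem U.comp {α β : Type*} {f : α → ℝ} (h : U f) (e : β → α) : U fun x => f (e x) :=
  fun x => h (e x)

theorem U_one {α : Type*} : U fun _ : α => (1 : ℝ) := fun _ => ⟨zero_le_one, le_rfl⟩

/-- An additive, positive, normalized functional on functions with values in the unit interval. -/
structure Mean (α : Type*) where
  m : (α → ℝ) → ℝ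
  nonneg : ∀ f, U f → 0 ≤ m f
  one : m (fun _ => 1) = 1
  add : ∀ f g, U f → U g → U (fun x => f x + g x) → m (fun x => f x + g x) = m f + m g

theorem Mean.le_one {α : Type*} (M : Mean α) {f : α → ℝ} (h : U f) : M.m f ≤ 1 := by
  have h1 : U fun x => 1 - f x := fun x => ⟨by linarith [(h x).2], by linarith [(h x).1]⟩
  have h2 := M.add f _ h h1 (by simpa using U_one)
  have h3 := M.nonneg _ h1
  simp only [add_sub_cancel, M.one] at h2
  linarith

/-- Push forward of a mean. -/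
def Mean.map {α β : Type*} (M : Mean α) (e : α → β) : Mean β where
  m f := M.m fun x => f (e x)
  nonneg _ h := M.nonneg _ (h.comp e)
  one := M.one
  add _ _ hf hg hfg := M.add _ _ (hf.comp e) (hg.comp e) (hfg.comp e)

/-- Integration of a family of means. -/
def Mean.bind {α β : Type*} (M : Mean α) (μ : α → Mean β) : Mean β where
  m f := M.m fun x => (μ x).m f
  nonneg f h := M.nonneg _ fun x => ⟨(μ x).nonneg f h, (μ x).le_one h⟩
  one := by simp only [Mean.one]
  add f g hf hg hfg := by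
    have e : (fun x => (μ x).m fun y => f y + g y) = fun x => (μ x).m f + (μ x).m g :=
      funext fun x => (μ x).add f g hf hg hfg
    rw [e]
    refine M.add _ _ (fun x => ⟨(μ x).nonneg f hf, (μ x).le_one hf⟩)
      (fun x => ⟨(μ x).nonneg g hg, (μ x).le_one hg⟩) ?_
    rw [← e]
    exact fun x => ⟨(μ x).nonneg _ hfg, (μ x).le_one hfg⟩

/-- A finitely supported probability vector gives a mean. -/
def Mean.ofWeights {α : Type*} (s : Finset α) (w : α → ℝ) (h0 : ∀ x ∈ s, 0 ≤ w x)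
    (h1 : ∑ x ∈ s, w x = 1) : Mean α where
  m f := ∑ x ∈ s, w x * f x
  nonneg _ h := Finset.sum_nonneg fun x hx => mul_nonneg (h0 x hx) (h x).1
  one := by simpa using h1
  add f g _ _ _ := by simp [mul_add, Finset.sum_add_distrib]

theorem exists_lim {ι κ : Type*} (l : Ultrafilter ι) (P : κ → Prop) (a : κ → ι → ℝ)
    (h : ∀ k, P k → ∀ i, 0 ≤ a k i ∧ a k i ≤ 1) :
    ∃ b : κ → ℝ, ∀ k, P k → Tendsto (a k) l (𝓝 (b k)) := by
  have : ∀ k, ∃ b : ℝ, P k → Tendsto (a k) l (𝓝 b) := fun k => by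
    by_cases hk : P k
    · obtain ⟨b, -, hb⟩ := (isCompact_Icc (a := (0 : ℝ)) (b := 1)).ultrafilter_le_nhds
        (l.map (a k)) (by
          rw [Ultrafilter.coe_map, le_principal_iff, mem_map]
          exact univ_mem' fun i => h k hk i)
      exact ⟨b, fun _ => hb⟩
    · exact ⟨0, fun h => absurd h hk⟩
  choose b hb using this
  exact ⟨b, hb⟩

/-- The mean only depends on the values on `P`. -/
def Supp {α : Type*} (M : Mean α) (P : Set α) : Prop :=
  ∀ φ ψ : α → ℝ, U φ → U ψ → (∀ x ∈ P, φ x = ψ x) → M.m φ = M.m ψ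

theorem supp_univ {α : Type*} (M : Mean α) : Supp M Set.univ := fun φ ψ _ _ h => by
  rw [show φ = ψ from funext fun x => h x trivial]

theorem Supp.mono {α : Type*} {M : Mean α} {P Q : Set α} (h : Supp M P) (hPQ : P ⊆ Q) :
    Supp M Q := fun φ ψ h1 h2 h3 => h φ ψ h1 h2 fun x hx => h3 x (hPQ hx)

/-- Almost invariant means give an invariant mean. -/
theorem Mean.compact {α κ : Type*} (τ : κ → α → α) (P : κ → Set α)
    (h : ∀ (S : Finset κ) (ε : ℝ), 0 < ε → ∃ M : Mean α, ∀ k ∈ S, Supp M (P k) ∧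
      ∀ φ, U φ → |M.m (fun x => φ (τ k x)) - M.m φ| ≤ ε) :
    ∃ M : Mean α, ∀ k, Supp M (P k) ∧ ∀ φ, U φ → M.m (fun x => φ (τ k x)) = M.m φ := by
  classical
  choose μ hμ using fun i : Finset κ × ℕ => h i.1 (1 / ((i.2 : ℝ) + 1)) (by positivity)
  let l : Ultrafilter (Finset κ × ℕ) := Ultrafilter.of atTop
  have hl : (l : Filter (Finset κ × ℕ)) ≤ atTop := Ultrafilter.of_le _
  obtain ⟨b, hb⟩ := exists_lim l U (fun f i => (μ i).m f)
    fun f hf i => ⟨(μ i).nonneg f hf, (μ i).le_one hf⟩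
  have hev : ∀ k, ∀ᶠ i in (l : Filter (Finset κ × ℕ)), k ∈ i.1 := fun k =>
    hl ((eventually_ge_atTop (({k}, 0) : Finset κ × ℕ)).mono fun i hi =>
      Finset.singleton_subset_iff.mp hi.1)
  have hz : Tendsto (fun i : Finset κ × ℕ => 1 / ((i.2 : ℝ) + 1)) l (𝓝 0) :=
    (tendsto_one_div_add_atTop_nhds_zero_nat.comp
      (by rw [← prod_atTop_atTop_eq]; exact tendsto_snd)).mono_left hl
  refine ⟨⟨b, fun f hf => ge_of_tendsto' (hb f hf) fun i => (μ i).nonneg f hf, ?_, ?_⟩,
    fun k => ⟨fun φ ψ h1 h2 h3 => ?_, fun φ hφ => ?_⟩⟩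
  · refine tendsto_nhds_unique (hb _ U_one) ?_
    simp only [Mean.one]
    exact tendsto_const_nhds
  · intro f g hf hg hfg
    refine tendsto_nhds_unique (hb _ hfg) ?_
    simp only [fun i => (μ i).add f g hf hg hfg]
    exact (hb f hf).add (hb g hg)
  · exact tendsto_nhds_unique_of_eventuallyEq (hb φ h1) (hb ψ h2)
      ((hev k).mono fun i hi => (hμ i k hi).1 φ ψ h1 h2 h3)
  · have h1 := ((hb _ (hφ.comp (τ k))).sub (hb φ hφ)).abs
    have h2 := le_of_tendsto_of_tendsto h1 hz ((hev k).mono fun i hi => (hμ i k hi).2 φ hφ)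
    exact sub_eq_zero.mp (abs_nonpos_iff.mp h2)

section Group

variable {Γ Q : Type*} [Group Γ] [Group Q]

/-- There is a mean on the ambient group that is left invariant under `K`. -/
def Amen (K : Set Γ) : Prop :=
  ∃ M : Mean Γ, ∀ g ∈ K, ∀ f, U f → M.m (fun x => f (g * x)) = M.m f

theorem Amen.mono {K L : Set Γ} (h : Amen L) (hKL : K ⊆ L) : Amen K := by
  obtain ⟨M, hM⟩ := h
  exact ⟨M, fun g hg => hM g (hKL hg)⟩

theorem amen_one : Amen {g : Γ | g = 1} :=
  ⟨Mean.ofWeights {1} (fun _ => 1) (by simp) (by simp), by rintro g rfl f _; simp⟩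

theorem amen_finite [Finite Q] (K : Set Q) : Amen K := by
  classical
  have := Fintype.ofFinite Q
  have hc : (0 : ℝ) < Fintype.card Q := by exact_mod_cast Fintype.card_pos
  refine ⟨Mean.ofWeights Finset.univ (fun _ => 1 / (Fintype.card Q : ℝ))
    (fun _ _ => by positivity) (by simp), fun g _ f _ => ?_⟩
  exact Fintype.sum_equiv (Equiv.mulLeft g) _ _ fun x => rfl

theorem amen_local {K : Set Γ} (h : ∀ S : Finset Γ, (S : Set Γ) ⊆ K → Amen (S : Set Γ)) :
    Amen K := by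
  classical
  obtain ⟨M, hM⟩ := Mean.compact (fun (k : K) (x : Γ) => (k : Γ) * x) (fun _ => Set.univ)
    fun S ε hε => by
      obtain ⟨M, hM⟩ := h (S.image Subtype.val) (by
        intro g hg
        obtain ⟨k, -, rfl⟩ := Finset.mem_image.mp (Finset.mem_coe.mp hg)
        exact k.2)
      refine ⟨M, fun k hk => ⟨supp_univ M, fun φ hφ => ?_⟩⟩
      rw [hM k (Finset.mem_coe.mpr (Finset.mem_image_of_mem _ hk)) φ hφ]
      simpa using hε.le
  exact ⟨M, fun g hg f hf => (hM ⟨g, hg⟩).2 f hf⟩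

/-- Groupoid criterion: an invariant mean on the objects and amenable isotropy groups. -/
theorem amen_of_groupoid {Ω : Type*} (R : Ω → Γ → Ω → Prop) (hrefl : ∀ ω, R ω 1 ω)
    (hsymm : ∀ ω g ω', R ω g ω' → R ω' g⁻¹ ω)
    (htrans : ∀ ω g ω' g' ω'', R ω g ω' → R ω' g' ω'' → R ω (g' * g) ω'')
    (hiso : ∀ ω, Amen {g | R ω g ω}) (p : Mean Ω) (K : Set Γ)
    (hK : ∀ s ∈ K, ∃ σ : Ω → Ω, (∀ φ, U φ → p.m (fun ω => φ (σ ω)) = p.m φ) ∧
      Supp p {ω | R ω s (σ ω)}) : Amen K := by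
  let st : Setoid Ω := ⟨fun ω ω' => ∃ g, R ω g ω', fun ω => ⟨1, hrefl ω⟩,
    fun ⟨g, h⟩ => ⟨g⁻¹, hsymm _ _ _ h⟩, fun ⟨g, h⟩ ⟨g', h'⟩ => ⟨g' * g, htrans _ _ _ _ _ h h'⟩⟩
  let rep : Ω → Ω := fun ω => (Quotient.mk st ω).out
  have hrep : ∀ ω, ∃ g, R (rep ω) g ω := fun ω => Quotient.mk_out (s := st) ω
  choose τ hτ using hrep
  choose μ hμ using hiso
  let ν : Ω → Mean Γ := fun ω => (μ (rep ω)).map fun γ => τ ω * γ
  refine ⟨p.bind ν, fun s hs f hf => ?_⟩
  obtain ⟨σ, h1, h2⟩ := hK s hs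
  have hU : ∀ f : Γ → ℝ, U f → U fun ω => (ν ω).m f := fun f hf ω =>
    ⟨(ν ω).nonneg f hf, (ν ω).le_one hf⟩
  change p.m (fun ω => (ν ω).m fun x => f (s * x)) = p.m fun ω => (ν ω).m f
  rw [← h1 _ (hU f hf)]
  refine h2 _ _ (hU _ (hf.comp _)) ((hU f hf).comp σ) fun ω hω => ?_
  have e : rep (σ ω) = rep ω := by
    simp only [rep]
    rw [Quotient.sound (s := st) (st.symm ⟨s, hω⟩)]
  have hk : R (rep ω) ((τ (σ ω))⁻¹ * (s * τ ω)) (rep ω) :=
    htrans _ _ _ _ _ (htrans _ _ _ _ _ (hτ ω) hω) (e ▸ hsymm _ _ _ (hτ (σ ω)))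
  have := hμ (rep ω) _ hk (fun γ => f (τ (σ ω) * γ)) (hf.comp _)
  simp only [ν, Mean.map, e]
  rw [← this]
  simp only [mul_assoc, mul_inv_cancel_left]

/-- `φ` is multiplicative on `K`. -/
def MulOn (K : Subgroup Γ) (φ : Γ → Q) : Prop := ∀ a ∈ K, ∀ b ∈ K, φ (a * b) = φ a * φ b

theorem MulOn.one {K : Subgroup Γ} {φ : Γ → Q} (h : MulOn K φ) : φ 1 = 1 := by
  have := h 1 K.one_mem 1 K.one_mem
  rw [one_mul] at this
  exact left_eq_mul.mp this

theorem MulOn.inv {K : Subgroup Γ} {φ : Γ → Q} (h : MulOn K φ) {g : Γ} (hg : g ∈ K) :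
    φ g⁻¹ = (φ g)⁻¹ := by
  have := h g⁻¹ (K.inv_mem hg) g hg
  rw [inv_mul_cancel, h.one] at this
  exact eq_inv_of_mul_eq_one_left this.symm

/-- Kernel of a map that is multiplicative on `K`. -/
def MulOn.ker {K : Subgroup Γ} {φ : Γ → Q} (h : MulOn K φ) : Subgroup Γ where
  carrier := {g | g ∈ K ∧ φ g = 1}
  one_mem' := ⟨K.one_mem, h.one⟩
  mul_mem' := fun {a b} ha hb => ⟨K.mul_mem ha.1 hb.1, by rw [h a ha.1 b hb.1, ha.2, hb.2, one_mul]⟩
  inv_mem' := fun {a} ha => ⟨K.inv_mem ha.1, by rw [h.inv ha.1, ha.2, inv_one]⟩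

theorem amen_ext {K : Subgroup Γ} {φ : Γ → Q} (h : MulOn K φ) (h1 : Amen (φ '' K))
    (h2 : Amen {g | g ∈ K ∧ φ g = 1}) : Amen (K : Set Γ) := by
  obtain ⟨p, hp⟩ := h1
  refine amen_of_groupoid (fun q g q' => g ∈ K ∧ q' = φ g * q)
    (fun q => ⟨K.one_mem, by rw [h.one, one_mul]⟩) ?_ ?_ (fun q => h2.mono ?_) p _ fun s hs =>
      ⟨fun q => φ s * q, hp _ ⟨s, hs, rfl⟩, (supp_univ p).mono fun q _ => ⟨hs, rfl⟩⟩
  · rintro q g _ ⟨hg, rfl⟩
    exact ⟨K.inv_mem hg, by rw [h.inv hg, inv_mul_cancel_left]⟩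
  · rintro q g _ g' _ ⟨hg, rfl⟩ ⟨hg', rfl⟩
    exact ⟨K.mul_mem hg' hg, by rw [h g' hg' g hg, mul_assoc]⟩
  · rintro g ⟨hg, e⟩
    exact ⟨hg, right_eq_mul.mp e⟩

theorem amen_multi {ι : Type*} (I : Finset ι) (φ : ι → Γ → Q) : ∀ K : Subgroup Γ,
    (∀ i ∈ I, MulOn K (φ i)) → (∀ i ∈ I, Amen (φ i '' K)) →
      Amen {g | g ∈ K ∧ ∀ i ∈ I, φ i g = 1} → Amen (K : Set Γ) := by
  classical
  induction I using Finset.induction_on with
  | empty => exact fun K _ _ h => h.mono fun g hg => ⟨hg, by simp⟩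
  | insert a I _ ih =>
    intro K h h1 h2
    have ha := h a (Finset.mem_insert_self _ _)
    refine amen_ext ha (h1 a (Finset.mem_insert_self _ _)) (ih ha.ker
      (fun i hi x hx y hy => h i (Finset.mem_insert_of_mem hi) x hx.1 y hy.1)
      (fun i hi => (h1 i (Finset.mem_insert_of_mem hi)).mono
        (Set.image_mono fun g hg => hg.1)) (h2.mono ?_))
    rintro g ⟨hg, hI⟩
    refine ⟨hg.1, fun i hi => ?_⟩
    rcases Finset.mem_insert.mp hi with rfl | hi
    · exact hg.2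
    · exact hI i hi

/-- Passing to the pointwise stabilizer of a finite invariant set. -/
theorem amen_of_fix {α : Type*} (π : Γ →* Equiv.Perm α) (K : Subgroup Γ) {A : Set α}
    (hA : A.Finite) (hK : ∀ g ∈ K, ∀ a, π g a ∈ A ↔ a ∈ A)
    (h : Amen {g | g ∈ K ∧ ∀ a ∈ A, π g a = a}) : Amen (K : Set Γ) := by
  classical
  have := hA.to_subtype
  let φ : Γ → Equiv.Perm A := fun g =>
    if hg : g ∈ K then (π g).subtypePerm (hK g hg) else 1
  refine amen_ext (φ := φ) (fun a ha b hb => ?_) (amen_finite _) (h.mono ?_)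
  · ext x
    simp [φ, ha, hb, K.mul_mem ha hb]
  · rintro g ⟨hg, e⟩
    refine ⟨hg, fun a ha => ?_⟩
    have := congrArg (fun e : Equiv.Perm A => (e ⟨a, ha⟩ : α)) e
    simpa [φ, hg] using this

/-- From the ambient group to the subgroup itself, in terms of set functions. -/
theorem setMean_of_amen (ι : Γ →* Q) (G : Subgroup Q) (hG : ∀ g ∈ G, ∃ γ, ι γ = g)
    (h : Amen {γ | ι γ ∈ G}) : ∃ m : Set G → ℝ, (∀ A, 0 ≤ m A) ∧ m Set.univ = 1 ∧
      (∀ A B, Disjoint A B → m (A ∪ B) = m A + m B) ∧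
      ∀ (g : G) (A : Set G), m ((fun x => g * x) '' A) = m A := by
  classical
  obtain ⟨M, hM⟩ := h
  let st := QuotientGroup.rightRel G
  let ρ : Q → Q := fun x => (Quotient.mk st x).out
  have hρ : ∀ x, x * (ρ x)⁻¹ ∈ G := fun x =>
    QuotientGroup.rightRel_apply.mp (Quotient.mk_out (s := st) x)
  have hρ2 : ∀ g ∈ G, ∀ x, ρ (g * x) = ρ x := fun g hg x => by
    simp only [ρ]
    rw [Quotient.sound (s := st) (a := g * x) (b := x)
      (QuotientGroup.rightRel_apply.mpr (by simpa using hg))]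
  let r : Γ → G := fun x => ⟨ι x * (ρ (ι x))⁻¹, hρ _⟩
  have hind : ∀ A : Set G, U (A.indicator fun _ => (1 : ℝ)) := fun A x => by
    by_cases hx : x ∈ A <;> simp [hx]
  refine ⟨fun A => (M.map r).m (A.indicator fun _ => 1), fun A => (M.map r).nonneg _ (hind A),
    by simpa using (M.map r).one, fun A B hAB => ?_, fun g A => ?_⟩
  · have e : (A ∪ B).indicator (fun _ => (1 : ℝ)) =
        fun x => A.indicator (fun _ => (1 : ℝ)) x + B.indicator (fun _ => 1) x :=
      Set.indicator_union_of_disjoint hAB _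
    have := hind (A ∪ B)
    simp only [e] at this ⊢
    exact (M.map r).add _ _ (hind A) (hind B) this
  · obtain ⟨γ, hγ⟩ := hG g g.2
    have := hM γ (by simp [hγ]) _ ((hind ((fun x => g * x) '' A)).comp r)
    simp only [Mean.map]
    rw [← this]
    congr 1
    funext x
    have e : r (γ * x) = g * r x := Subtype.ext (by
      simp only [r, map_mul, hγ, hρ2 g g.2, Subgroup.coe_mul, mul_assoc])
    rw [e]
    by_cases hx : r x ∈ A
    · rw [Set.indicator_of_mem hx, Set.indicator_of_mem (Set.mem_image_of_mem _ hx)]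
    · rw [Set.indicator_of_notMem hx, Set.indicator_of_notMem]
      rintro ⟨y, hy, e⟩
      exact hx (mul_left_cancel e ▸ hy)

end Group

/-! ### Integration against a finitely additive probability -/

theorem layer_sum {α : Type*} (μ : Set α → ℝ)
    (ha : ∀ A B, Disjoint A B → μ (A ∪ B) = μ A + μ B) {τ : Type*} (π : α → τ) (T : Finset τ) :
    μ (π ⁻¹' T) = ∑ t ∈ T, μ (π ⁻¹' {t}) := by
  classical
  induction T using Finset.induction_on with
  | empty =>
    have := ha ∅ ∅ (by simp)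
    simp only [Set.union_self] at this
    simpa using this
  | insert a T haT ih =>
    rw [Finset.sum_insert haT, ← ih, ← ha _ _ (Disjoint.preimage _ (by simpa using haT)),
      Finset.coe_insert, Set.insert_eq, Set.preimage_union]

theorem layer_eq {α : Type*} (μ : Set α → ℝ)
    (ha : ∀ A B, Disjoint A B → μ (A ∪ B) = μ A + μ B) {τ : Type*} (π : α → τ) (T : Finset τ)
    (hT : ∀ x, π x ∈ T) (φ : τ → ℕ) (n : ℕ) (hn : ∀ t ∈ T, φ t ≤ n) :
    ∑ i ∈ Finset.range n, μ {x | i < φ (π x)} = ∑ t ∈ T, φ t * μ (π ⁻¹' {t}) := by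
  classical
  have e : ∀ i, μ {x | i < φ (π x)} = ∑ t ∈ T, if i < φ t then μ (π ⁻¹' {t}) else 0 := by
    intro i
    rw [← Finset.sum_filter, ← layer_sum μ ha]
    congr 1
    ext x
    simp [hT x]
  simp only [e]
  rw [Finset.sum_comm]
  refine Finset.sum_congr rfl fun t ht => ?_
  rw [← Finset.sum_filter, Finset.sum_const, nsmul_eq_mul]
  congr 2
  have : (Finset.range n).filter (fun i => i < φ t) = Finset.range (φ t) := by
    ext i
    have := hn t ht
    simp only [Finset.mem_filter, Finset.mem_range]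
    omega
  rw [this, Finset.card_range]

/-- A finitely additive probability gives a mean with the same symmetries. -/
theorem mean_of_setMean {α : Type*} (μ : Set α → ℝ) (h0 : ∀ A, 0 ≤ μ A) (h1 : μ Set.univ = 1)
    (ha : ∀ A B, Disjoint A B → μ (A ∪ B) = μ A + μ B) :
    ∃ M : Mean α, ∀ e : α → α, (∀ A, μ (e ⁻¹' A) = μ A) →
      ∀ f, U f → M.m (fun x => f (e x)) = M.m f := by
  classical
  have hle : ∀ A, μ A ≤ 1 := fun A => by
    have := ha A Aᶜ disjoint_compl_right
    rw [Set.union_compl_self, h1] at this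
    linarith [h0 Aᶜ]
  let I : (α → ℝ) → ℕ → ℝ := fun f n =>
    (∑ i ∈ Finset.range (n + 1), μ {x | i < ⌊((n : ℝ) + 1) * f x⌋₊}) / ((n : ℝ) + 1)
  have hI : ∀ f n, 0 ≤ I f n ∧ I f n ≤ 1 := fun f n => by
    refine ⟨div_nonneg (Finset.sum_nonneg fun _ _ => h0 _) (by positivity), ?_⟩
    rw [div_le_one (by positivity)]
    refine (Finset.sum_le_sum fun i _ => hle _).trans ?_
    simp
  let l : Ultrafilter ℕ := Ultrafilter.of atTop
  have hl : (l : Filter ℕ) ≤ atTop := Ultrafilter.of_le _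
  obtain ⟨b, hb⟩ := exists_lim l (fun _ => True) I fun f _ n => hI f n
  refine ⟨⟨b, fun f _ => ge_of_tendsto' (hb f trivial) fun n => (hI f n).1, ?_, ?_⟩,
    fun e he f _ => ?_⟩
  · refine tendsto_nhds_unique (hb _ trivial) (tendsto_const_nhds.congr fun n => ?_)
    have : ∀ i ∈ Finset.range (n + 1),
        μ {_x : α | i < ⌊((n : ℝ) + 1) * 1⌋₊} = 1 := fun i hi => by
      rw [mul_one, ← Nat.cast_succ, Nat.floor_natCast]
      exact (congrArg μ (Set.eq_univ_of_forall fun _ => Finset.mem_range.mp hi)).trans h1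
    simp only [I]
    rw [Finset.sum_congr rfl this]
    simp only [Finset.sum_const, Finset.card_range, nsmul_eq_mul, mul_one]
    push_cast
    field_simp
  · intro f g hf hg hfg
    have key : ∀ n : ℕ, |I (fun x => f x + g x) n - (I f n + I g n)| ≤ 1 / ((n : ℝ) + 1) := by
      intro n
      have hN : (0 : ℝ) < (n : ℝ) + 1 := by positivity
      have hfl : ∀ u : α → ℝ, U u → ∀ x, ⌊((n : ℝ) + 1) * u x⌋₊ ≤ n + 1 := fun u hu x =>
        Nat.floor_le_of_le (by push_cast; nlinarith [(hu x).2])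
      let π : α → ℕ × ℕ × ℕ := fun x => (⌊((n : ℝ) + 1) * f x⌋₊, ⌊((n : ℝ) + 1) * g x⌋₊,
        ⌊((n : ℝ) + 1) * (f x + g x)⌋₊)
      let T : Finset (ℕ × ℕ × ℕ) :=
        (Finset.range (n + 2) ×ˢ Finset.range (n + 2) ×ˢ Finset.range (n + 2)).filter fun t =>
          t.1 + t.2.1 ≤ t.2.2 ∧ t.2.2 ≤ t.1 + t.2.1 + 1
      have hT : ∀ x, π x ∈ T := fun x => by
        have a1 := hfl f hf x
        have a2 := hfl g hg x
        have a3 := hfl _ hfg x
        have p1 := mul_nonneg hN.le (hf x).1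
        have p2 := mul_nonneg hN.le (hg x).1
        simp only [T, π, Finset.mem_filter, Finset.mem_product, Finset.mem_range]
        refine ⟨⟨by omega, by omega, by omega⟩, ?_, ?_⟩
        · refine Nat.le_floor ?_
          push_cast
          linarith [Nat.floor_le p1, Nat.floor_le p2, mul_add ((n : ℝ) + 1) (f x) (g x)]
        · refine Nat.le_of_lt_succ ((Nat.floor_lt (by nlinarith)).mpr ?_)
          push_cast
          linarith [Nat.lt_floor_add_one (((n : ℝ) + 1) * f x),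
            Nat.lt_floor_add_one (((n : ℝ) + 1) * g x), mul_add ((n : ℝ) + 1) (f x) (g x)]
      have hb' : ∀ t ∈ T, t.1 ≤ n + 1 ∧ t.2.1 ≤ n + 1 ∧ t.2.2 ≤ n + 1 ∧
          t.1 + t.2.1 ≤ t.2.2 ∧ t.2.2 ≤ t.1 + t.2.1 + 1 := fun t ht => by
        simp only [T, Finset.mem_filter, Finset.mem_product, Finset.mem_range] at ht
        omega
      have e1 := layer_eq μ ha π T hT (fun t => t.1) (n + 1) fun t ht => (hb' t ht).1
      have e2 := layer_eq μ ha π T hT (fun t => t.2.1) (n + 1) fun t ht => (hb' t ht).2.1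
      have e3 := layer_eq μ ha π T hT (fun t => t.2.2) (n + 1) fun t ht => (hb' t ht).2.2.1
      have e4 : ∑ t ∈ T, μ (π ⁻¹' {t}) = 1 := by
        rw [← layer_sum μ ha, ← h1]
        congr 1
        exact Set.eq_univ_of_forall hT
      simp only [I]
      rw [← add_div, ← sub_div, abs_div, abs_of_pos hN]
      refine div_le_div_of_nonneg_right ?_ hN.le
      erw [e1, e2, e3]
      rw [← Finset.sum_add_distrib, ← Finset.sum_sub_distrib]
      refine ((Finset.abs_sum_le_sum_abs _ _).trans (Finset.sum_le_sum fun t ht => ?_)).trans e4.le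
      obtain ⟨-, -, -, c1, c2⟩ := hb' t ht
      have d1 : (t.1 : ℝ) + t.2.1 ≤ t.2.2 := by exact_mod_cast c1
      have d2 : (t.2.2 : ℝ) ≤ t.1 + t.2.1 + 1 := by exact_mod_cast c2
      have := h0 (π ⁻¹' {t})
      rw [abs_le]
      constructor <;> nlinarith
    have h2 := ((hb (fun x => f x + g x) trivial).sub ((hb f trivial).add (hb g trivial))).abs
    have h3 := le_of_tendsto_of_tendsto' h2
      (tendsto_one_div_add_atTop_nhds_zero_nat.mono_left hl) key
    exact sub_eq_zero.mp (abs_nonpos_iff.mp h3)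
  · refine tendsto_nhds_unique (hb _ trivial) ((hb f trivial).congr fun n => ?_)
    simp only [I]
    congr 1
    exact Finset.sum_congr rfl fun i _ => (he {x | i < ⌊((n : ℝ) + 1) * f x⌋₊}).symm

end Pool.Agent.MP_622d34_al
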