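import Mathlib.Analysis.SpecialFunctions.Trigonometric.Bounds
import Pool.Agent.MP_622d34_al.Mean

/-! Random finite sets built from a potential of small energy, and the extension operator that
produces such potentials on rays. -/

namespace Pool.Agent.MP_622d34_al

open Finset Real

/-! ### Product measures on finite sets -/

section Cut

variable {α : Type*} [DecidableEq α]

/-- Amplitude of the set `A` in the product vector attached to `F`. -/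
noncomputable def amp (W : Finset α) (F : α → ℝ) (A : Finset α) : ℝ :=
  (∏ x ∈ A, sin (π / 2 * F x)) * ∏ x ∈ W \ A, cos (π / 2 * F x)

theorem amp_inner (W : Finset α) (F F' : α → ℝ) :
    ∑ A ∈ W.powerset, amp W F A * amp W F' A = ∏ x ∈ W, cos (π / 2 * F x - π / 2 * F' x) := by
  simp only [cos_sub, add_comm (cos _ * cos _)]
  rw [prod_add]
  refine sum_congr rfl fun A _ => ?_
  simp only [amp, prod_mul_distrib]
  ring

theorem amp_sq (W : Finset α) (F : α → ℝ) : ∑ A ∈ W.powerset, amp W F A ^ 2 = 1 := by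
  simpa [sq] using amp_inner W F F

/-- The law of the random subset of `W`. -/
noncomputable def cutMean (W : Finset α) (F : α → ℝ) : Mean (Finset α) :=
  Mean.ofWeights W.powerset (fun A => amp W F A ^ 2) (fun _ _ => sq_nonneg _) (amp_sq W F)

theorem cutMean_ext {W W' : Finset α} (h : W ⊆ W') {F : α → ℝ} (hF : ∀ x, x ∉ W → F x = 0)
    (φ : Finset α → ℝ) : (cutMean W' F).m φ = (cutMean W F).m φ := by
  simp only [cutMean, Mean.ofWeights]
  symm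
  refine sum_subset_zero_on_sdiff (powerset_mono.mpr h) (fun A hA => ?_) fun A hA => ?_
  · obtain ⟨x, hx, hx'⟩ := not_subset.mp (mem_powerset.not.mp (mem_sdiff.mp hA).2)
    have : ∏ x ∈ A, sin (π / 2 * F x) = 0 := prod_eq_zero hx (by simp [hF x hx'])
    simp [amp, this]
  · have : ∏ x ∈ W \ A, cos (π / 2 * F x) = ∏ x ∈ W' \ A, cos (π / 2 * F x) :=
      prod_subset (sdiff_subset_sdiff h le_rfl) fun x hx hx' => by
        have : x ∉ W := fun hW => hx' (mem_sdiff.mpr ⟨hW, (mem_sdiff.mp hx).2⟩)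
        simp [hF x this]
    simp only [amp, this]

theorem cutMean_image (W : Finset α) (F : α → ℝ) (σ : Equiv.Perm α) (φ : Finset α → ℝ) :
    (cutMean W F).m (fun A => φ (A.image σ)) =
      (cutMean (W.image σ) fun x => F (σ.symm x)).m φ := by
  simp only [cutMean, Mean.ofWeights]
  refine sum_nbij' (fun A => A.image σ) (fun B => B.image σ.symm) (fun A hA => ?_)
    (fun B hB => ?_) (fun A _ => by simp [image_image]) (fun B _ => by simp [image_image])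
    fun A _ => ?_
  · exact mem_powerset.mpr (image_subset_image (mem_powerset.mp hA))
  · refine mem_powerset.mpr ((image_subset_image (mem_powerset.mp hB)).trans ?_)
    simp [image_image]
  · simp only [amp, ← image_sdiff _ _ σ.injective, prod_image σ.injective.injOn,
      Equiv.symm_apply_apply]

theorem one_sub_sum_le_prod (W : Finset α) (a : α → ℝ) (h0 : ∀ x, 0 ≤ a x) (h1 : ∀ x, a x ≤ 1) :
    1 - ∑ x ∈ W, (1 - a x) ≤ ∏ x ∈ W, a x := by
  induction W using Finset.induction_on with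
  | empty => simp
  | insert x W hx ih =>
    rw [sum_insert hx, prod_insert hx]
    have h2 : 0 ≤ ∑ x ∈ W, (1 - a x) := sum_nonneg fun x _ => by linarith [h1 x]
    nlinarith [mul_le_mul_of_nonneg_left ih (h0 x), h1 x]

theorem cutMean_diff (W : Finset α) {F F' : α → ℝ} (hF : U F) (hF' : U F')
    {φ : Finset α → ℝ} (hφ : U φ) :
    ((cutMean W F').m φ - (cutMean W F).m φ) ^ 2 ≤ 16 * ∑ x ∈ W, (F' x - F x) ^ 2 := by
  simp only [cutMean, Mean.ofWeights]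
  have h1 := amp_sq W F
  have h2 := amp_sq W F'
  have h3 := amp_inner W F' F
  have h4 := one_sub_sum_le_prod W (fun x => cos (π / 2 * F' x - π / 2 * F x))
    (fun x => cos_nonneg_of_mem_Icc
      ⟨by nlinarith [(hF x).2, (hF' x).1, pi_pos], by nlinarith [(hF x).1, (hF' x).2, pi_pos]⟩)
    fun x => cos_le_one _
  have h5 : ∑ x ∈ W, (1 - cos (π / 2 * F' x - π / 2 * F x)) ≤ 2 * ∑ x ∈ W, (F' x - F x) ^ 2 := by
    rw [mul_sum]
    refine sum_le_sum fun x _ => ?_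
    have a1 := one_sub_sq_div_two_le_cos (x := π / 2 * F' x - π / 2 * F x)
    have a2 : π ^ 2 ≤ 16 := by nlinarith [pi_le_four, pi_pos]
    nlinarith [sq_nonneg (F' x - F x)]
  have h6 := sum_mul_sq_le_sq_mul_sq W.powerset (fun A => amp W F' A - amp W F A)
    fun A => (amp W F' A + amp W F A) * φ A
  have h7 : ∑ A ∈ W.powerset, (amp W F' A - amp W F A) ^ 2 =
      2 - 2 * ∑ A ∈ W.powerset, amp W F' A * amp W F A := by
    simp only [sub_sq, sum_add_distrib, sum_sub_distrib, h1, h2, mul_assoc, ← mul_sum]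
    ring
  have h8 : ∑ A ∈ W.powerset, ((amp W F' A + amp W F A) * φ A) ^ 2 ≤ 4 := by
    calc _ ≤ ∑ A ∈ W.powerset, (2 * amp W F' A ^ 2 + 2 * amp W F A ^ 2) :=
          sum_le_sum fun A _ => by
            have : φ A ^ 2 ≤ 1 := by nlinarith [(hφ A).1, (hφ A).2]
            rw [mul_pow]
            nlinarith [sq_nonneg (amp W F' A + amp W F A), sq_nonneg (amp W F' A - amp W F A)]
      _ = 4 := by rw [sum_add_distrib, ← mul_sum, ← mul_sum, h1, h2]; norm_num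
  have h9 : ∑ A ∈ W.powerset, amp W F' A ^ 2 * φ A - ∑ A ∈ W.powerset, amp W F A ^ 2 * φ A =
      ∑ A ∈ W.powerset, (amp W F' A - amp W F A) * ((amp W F' A + amp W F A) * φ A) := by
    rw [← sum_sub_distrib]
    exact sum_congr rfl fun A _ => by ring
  have h10 : 0 ≤ ∑ A ∈ W.powerset, (amp W F' A - amp W F A) ^ 2 :=
    sum_nonneg fun _ _ => sq_nonneg _
  rw [h9]
  nlinarith

theorem exists_cut (W : Finset α) {F : α → ℝ} (hF : U F) (hW : ∀ x, x ∉ W → F x = 0) :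
    ∃ M : Mean (Finset α), Supp M {A | ∀ y, F y = 1 → y ∈ A} ∧
      ∀ (σ : Equiv.Perm α) (E : ℝ), (∀ T : Finset α, ∑ x ∈ T, (F (σ x) - F x) ^ 2 ≤ E) →
        ∀ φ, U φ → (M.m (fun A => φ (A.image σ)) - M.m φ) ^ 2 ≤ 16 * E := by
  refine ⟨cutMean W F, fun φ ψ _ _ h => ?_, fun σ E hE φ hφ => ?_⟩
  · simp only [cutMean, Mean.ofWeights]
    refine sum_congr rfl fun A _ => ?_
    by_cases hA : ∀ y, F y = 1 → y ∈ A
    · rw [h A hA]
    · push Not at hA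
      obtain ⟨y, h1, h2⟩ := hA
      have hy : y ∈ W := by
        by_contra hy
        simp [hW y hy] at h1
      have : ∏ x ∈ W \ A, cos (π / 2 * F x) = 0 :=
        prod_eq_zero (mem_sdiff.mpr ⟨hy, h2⟩) (by simp [h1])
      simp [amp, this]
  · rw [cutMean_image, ← cutMean_ext (W' := W ∪ W.image σ) subset_union_left hW,
      ← cutMean_ext (W' := W ∪ W.image σ) subset_union_right fun x hx => hW _ fun h =>
        hx (mem_image.mpr ⟨_, h, by simp⟩)]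
    refine (cutMean_diff _ hF (hF.comp σ.symm) hφ).trans ?_
    have := hE ((W ∪ W.image σ).image σ.symm)
    rw [sum_image σ.symm.injective.injOn] at this
    simp only [Equiv.apply_symm_apply] at this
    have e : ∑ x ∈ W ∪ W.image σ, (F (σ.symm x) - F x) ^ 2 =
        ∑ x ∈ W ∪ W.image σ, (F x - F (σ.symm x)) ^ 2 := sum_congr rfl fun x _ => by ring
    linarith

end Cut

/-! ### Rays -/

variable {X : Type*}

/-- Shift of a ray. -/
def sh (n : ℕ) (ξ : ℕ → X) : ℕ → X := fun i => ξ (i + n)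

/-- The first `p` letters agree. -/
def Ag (ξ η : ℕ → X) (p : ℕ) : Prop := ∀ i < p, ξ i = η i

theorem sh_zero (ξ : ℕ → X) : sh 0 ξ = ξ := rfl

theorem sh_sh (a b : ℕ) (ξ : ℕ → X) : sh a (sh b ξ) = sh (a + b) ξ := by
  funext i
  simp [sh, add_assoc]

theorem Ag.symm {ξ η : ℕ → X} {p : ℕ} (h : Ag ξ η p) : Ag η ξ p := fun i hi => (h i hi).symm

theorem Ag.trans {ξ η ζ : ℕ → X} {p : ℕ} (h : Ag ξ η p) (h' : Ag η ζ p) : Ag ξ ζ p :=
  fun i hi => (h i hi).trans (h' i hi)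

theorem Ag.mono {ξ η : ℕ → X} {p q : ℕ} (h : Ag ξ η p) (hq : q ≤ p) : Ag ξ η q :=
  fun i hi => h i (by omega)

theorem Ag.sh {ξ η : ℕ → X} {p : ℕ} (h : Ag ξ η p) (n q : ℕ) (hq : q + n ≤ p) :
    Ag (sh n ξ) (sh n η) q := fun i hi => h _ (by omega)

theorem Ag.add {ξ η : ℕ → X} {a b : ℕ} (h : Ag ξ η a)
    (h' : Ag (Pool.Agent.MP_622d34_al.sh a ξ) (Pool.Agent.MP_622d34_al.sh a η) b) :
    Ag ξ η (a + b) := fun i hi => by
  by_cases hia : i < a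
  · exact h i hia
  · have := h' (i - a) (by omega)
    simpa only [Pool.Agent.MP_622d34_al.sh, Nat.sub_add_cancel (not_lt.mp hia)] using this

theorem Ag.ext {ξ η : ℕ → X} {a : ℕ} (h : Ag ξ η a)
    (h' : Pool.Agent.MP_622d34_al.sh a ξ = Pool.Agent.MP_622d34_al.sh a η) : ξ = η :=
  funext fun i => h.add (b := i + 1) (fun j _ => congrFun h' j) i (by omega)

/-- A finite shift invariant set `Y` of rays and an equivalence relation `Hr` (the orbits of a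
self-similar group that preserves `Y`). -/
structure Sys (X : Type*) where
  Y : Finset (ℕ → X)
  Hr : (ℕ → X) → (ℕ → X) → Prop
  n0 : ℕ
  refl : ∀ ξ, Hr ξ ξ
  symm : ∀ {ξ η}, Hr ξ η → Hr η ξ
  trans : ∀ {ξ η ζ}, Hr ξ η → Hr η ζ → Hr ξ ζ
  shift : ∀ {ξ η} (n), Hr ξ η → Hr (sh n ξ) (sh n η)
  lift : ∀ {ξ η z}, Hr ξ η → z ∈ Y → ∃ z' ∈ Y, ∀ p, Ag ξ z p ↔ Ag η z' p
  shY : ∀ {y} (n), y ∈ Y → sh n y ∈ Y
  sep : ∀ {y z}, y ∈ Y → z ∈ Y → Ag y z n0 → y = z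

namespace Sys

variable (D : Sys X)

theorem memY {ξ η : ℕ → X} (h : D.Hr ξ η) (hξ : ξ ∈ D.Y) : η ∈ D.Y := by
  obtain ⟨z, hz, H⟩ := D.lift h hξ
  rwa [show η = z from funext fun i => (H (i + 1)).mp (fun _ _ => rfl) i (by omega)]

theorem shift_le {ξ η : ℕ → X} {a b : ℕ} (h : D.Hr (sh a ξ) (sh a η)) (hab : a ≤ b) :
    D.Hr (sh b ξ) (sh b η) := by
  have := D.shift (b - a) h
  rwa [sh_sh, sh_sh, Nat.sub_add_cancel hab] at this

theorem shY_le {ξ : ℕ → X} {a b : ℕ} (h : sh a ξ ∈ D.Y) (hab : a ≤ b) : sh b ξ ∈ D.Y := by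
  have := D.shY (b - a) h
  rwa [sh_sh, Nat.sub_add_cancel hab] at this

/-- `η` follows a ray of `Y` for exactly `p` letters. -/
def Dev (η : ℕ → X) (p : ℕ) : Prop := ∃ z ∈ D.Y, Ag η z p ∧ ¬ Ag η z (p + 1)

/-- Both rays leave a ray of `Y` at the same place and have equivalent tails. -/
def N3 (p : ℕ) (η η' : ℕ → X) : Prop :=
  D.Dev η p ∧ D.Dev η' p ∧ D.Hr (sh (p + 1) η) (sh (p + 1) η')

/-- Neighbours through deviations of depth at least `r`. -/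
def Nb (r : ℕ) (η η' : ℕ → X) : Prop :=
  D.Hr η η' ∨ (η ∈ D.Y ∧ η' ∈ D.Y) ∨ ∃ p, r ≤ p ∧ D.N3 p η η'

variable {D}

theorem Dev.of_Hr {η η' : ℕ → X} {p : ℕ} (h : D.Dev η p) (H : D.Hr η η') : D.Dev η' p := by
  obtain ⟨z, hz, h1, h2⟩ := h
  obtain ⟨z', hz', h3⟩ := D.lift H hz
  exact ⟨z', hz', (h3 _).mp h1, fun h => h2 ((h3 _).mpr h)⟩

theorem Dev.sh {η : ℕ → X} {p n : ℕ} (h : D.Dev η p) (hn : n ≤ p) : D.Dev (sh n η) (p - n) := by
  obtain ⟨z, hz, h1, h2⟩ := h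
  refine ⟨_, D.shY n hz, h1.sh n _ (by omega), fun h => h2 ?_⟩
  have := (h1.mono hn).add h
  rwa [show n + (p - n + 1) = p + 1 by omega] at this

theorem Dev.not_ag {η w : ℕ → X} {p : ℕ} (h : D.Dev η p) (hp : D.n0 ≤ p) (hw : w ∈ D.Y) :
    ¬ Ag η w (p + 1) := by
  obtain ⟨z, hz, h1, h2⟩ := h
  intro H
  obtain rfl := D.sep hz hw ((h1.mono hp).symm.trans (H.mono (by omega)))
  exact h2 H

theorem Dev.unique {η : ℕ → X} {p q : ℕ} (h : D.Dev η p) (h' : D.Dev η q) (hp : D.n0 ≤ p)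
    (hq : D.n0 ≤ q) : p = q := by
  by_contra hne
  rcases Nat.lt_or_gt_of_ne hne with hlt | hlt
  · obtain ⟨z, hz, h1, -⟩ := h'
    exact h.not_ag hp hz (h1.mono hlt)
  · obtain ⟨z, hz, h1, -⟩ := h
    exact h'.not_ag hq hz (h1.mono hlt)

theorem N3.sh {η η' : ℕ → X} {p n : ℕ} (h : D.N3 p η η') (hn : n ≤ p) :
    D.N3 (p - n) (sh n η) (sh n η') := by
  refine ⟨h.1.sh hn, h.2.1.sh hn, ?_⟩
  rw [sh_sh, sh_sh, show p - n + 1 + n = p + 1 by omega]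
  exact h.2.2

theorem Nb.symm {r : ℕ} {η η' : ℕ → X} (h : D.Nb r η η') : D.Nb r η' η := by
  rcases h with h | h | ⟨p, hp, h⟩
  · exact Or.inl (D.symm h)
  · exact Or.inr (Or.inl h.symm)
  · exact Or.inr (Or.inr ⟨p, hp, h.2.1, h.1, D.symm h.2.2⟩)

theorem Nb.of_Hr {r : ℕ} {η η' ζ : ℕ → X} (H : D.Hr η η') (h : D.Nb r η' ζ) : D.Nb r η ζ := by
  rcases h with h | h | ⟨p, hp, h⟩
  · exact Or.inl (D.trans H h)
  · exact Or.inr (Or.inl ⟨D.memY (D.symm H) h.1, h.2⟩)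
  · exact Or.inr (Or.inr ⟨p, hp, h.1.of_Hr (D.symm H), h.2.1, D.trans (D.shift _ H) h.2.2⟩)

theorem Nb.trans {η η' ζ : ℕ → X} (H : D.Nb D.n0 η η') (h : D.Nb D.n0 η' ζ) :
    D.Nb D.n0 η ζ := by
  rcases H with H | H | ⟨p, hp, H⟩
  · exact h.of_Hr H
  · rcases h with h | h | ⟨q, hq, h⟩
    · exact Or.inr (Or.inl ⟨H.1, D.memY h H.2⟩)
    · exact Or.inr (Or.inl ⟨H.1, h.2⟩)
    · exact absurd (fun _ _ => rfl) (h.1.not_ag hq H.2)
  · rcases h with h | h | ⟨q, hq, h⟩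
    · exact Or.inr (Or.inr ⟨p, hp, H.1, H.2.1.of_Hr h, D.trans H.2.2 (D.shift _ h)⟩)
    · exact absurd (fun _ _ => rfl) (H.2.1.not_ag hp h.1)
    · obtain rfl := H.2.1.unique h.1 hp hq
      exact Or.inr (Or.inr ⟨p, hp, H.1, h.2.1, D.trans H.2.2 h.2.2⟩)

theorem Nb.sh {r : ℕ} {η η' : ℕ → X} (h : D.Nb r η η') (n : ℕ) :
    D.Nb 0 (sh n η) (sh n η') := by
  rcases h with h | h | ⟨p, -, h⟩
  · exact Or.inl (D.shift n h)
  · exact Or.inr (Or.inl ⟨D.shY n h.1, D.shY n h.2⟩)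
  · by_cases hn : n ≤ p
    · exact Or.inr (Or.inr ⟨_, Nat.zero_le _, h.sh hn⟩)
    · exact Or.inl (D.shift_le h.2.2 (by omega))

theorem Nb.sh_Hr {r n : ℕ} {η η' : ℕ → X} (h : D.Nb r η η') (hn : ∀ z ∈ D.Y, ¬ Ag η z n) :
    D.Hr (Pool.Agent.MP_622d34_al.sh n η) (Pool.Agent.MP_622d34_al.sh n η') := by
  rcases h with h | h | ⟨p, -, h⟩
  · exact D.shift n h
  · exact absurd (fun _ _ => rfl) (hn η h.1)
  · by_cases hp : n ≤ p
    · obtain ⟨z, hz, h1, -⟩ := h.1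
      exact absurd (h1.mono hp) (hn z hz)
    · exact D.shift_le h.2.2 (by omega)

/-- Invariant functions with values in the unit interval. -/
def Good (D : Sys X) (g : (ℕ → X) → ℝ) : Prop := U g ∧ ∀ η η', D.Hr η η' → g η = g η'

/-- Oscillation of `g` on the neighbours of `η`. -/
noncomputable def om (D : Sys X) (g : (ℕ → X) → ℝ) (η : ℕ → X) : ℝ :=
  sSup {d | ∃ η', D.Nb 0 η η' ∧ d = |g η' - g η|}

theorem le_om {g : (ℕ → X) → ℝ} (hg : U g) {η η' : ℕ → X} (h : D.Nb 0 η η') :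
    |g η' - g η| ≤ D.om g η := by
  refine le_csSup ⟨1, ?_⟩ ⟨η', h, rfl⟩
  rintro _ ⟨ζ, -, rfl⟩
  rw [abs_le]
  constructor <;> linarith [(hg ζ).1, (hg ζ).2, (hg η).1, (hg η).2]

theorem om_nonneg {g : (ℕ → X) → ℝ} (hg : U g) (η : ℕ → X) : 0 ≤ D.om g η :=
  (abs_nonneg _).trans (le_om hg (Or.inl (D.refl η)))

theorem om_le {g : (ℕ → X) → ℝ} {η : ℕ → X} {c : ℝ}
    (h : ∀ η', D.Nb 0 η η' → |g η' - g η| ≤ c) : D.om g η ≤ c :=
  csSup_le ⟨_, η, Or.inl (D.refl η), rfl⟩ (by rintro _ ⟨ζ, hζ, rfl⟩; exact h ζ hζ)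

theorem om_Hr {g : (ℕ → X) → ℝ} (hg : D.Good g) {η η' : ℕ → X} (h : D.Hr η η') :
    D.om g η' ≤ D.om g η :=
  om_le fun ζ hζ => by rw [← hg.2 _ _ h]; exact le_om hg.1 (hζ.of_Hr h)

/-- Largest value of `g` on the shifted class of `ζ`. -/
noncomputable def gam (D : Sys X) (l : ℕ) (g : (ℕ → X) → ℝ) (ζ : ℕ → X) : ℝ :=
  sSup {d | ∃ ζ', D.Nb D.n0 ζ ζ' ∧ d = g (sh l ζ')}

theorem gam_congr (l : ℕ) (g : (ℕ → X) → ℝ) {ζ ζ' : ℕ → X} (h : D.Nb D.n0 ζ ζ') :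
    D.gam l g ζ = D.gam l g ζ' := by
  unfold gam
  congr 1
  ext d
  exact ⟨fun ⟨a, h1, h2⟩ => ⟨a, h.symm.trans h1, h2⟩, fun ⟨a, h1, h2⟩ => ⟨a, h.trans h1, h2⟩⟩

theorem gam_le {l : ℕ} {g : (ℕ → X) → ℝ} {ζ : ℕ → X} {c : ℝ}
    (h : ∀ ζ', D.Nb D.n0 ζ ζ' → g (sh l ζ') ≤ c) : D.gam l g ζ ≤ c :=
  csSup_le ⟨_, ζ, Or.inl (D.refl ζ), rfl⟩ (by rintro _ ⟨a, ha, rfl⟩; exact h a ha)

theorem le_gam (l : ℕ) {g : (ℕ → X) → ℝ} (hg : U g) (ζ : ℕ → X) : g (sh l ζ) ≤ D.gam l g ζ :=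
  le_csSup ⟨1, by rintro _ ⟨a, -, rfl⟩; exact (hg _).2⟩ ⟨ζ, Or.inl (D.refl ζ), rfl⟩

theorem gam_le_om (l : ℕ) {g : (ℕ → X) → ℝ} (hg : U g) (ζ : ℕ → X) :
    D.gam l g ζ ≤ g (sh l ζ) + D.om g (sh l ζ) :=
  gam_le fun ζ' h => by linarith [(abs_le.mp (le_om hg (h.sh l))).2]

theorem gam_eq (l : ℕ) {g : (ℕ → X) → ℝ} (hg : D.Good g) {ζ : ℕ → X}
    (h : ∀ z ∈ D.Y, ¬ Ag ζ z l) : D.gam l g ζ = g (sh l ζ) :=
  le_antisymm (gam_le fun _ h' => (hg.2 _ _ (h'.sh_Hr h)).ge) (le_gam l hg.1 ζ)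

/-- The extension operator: an average over `L` scales. -/
noncomputable def ext (D : Sys X) (L k : ℕ) (g : (ℕ → X) → ℝ) (ξ : ℕ → X) : ℝ :=
  (∑ i ∈ range L, D.gam (k - i * D.n0) g (sh (i * D.n0) ξ)) / L

variable {L k : ℕ} {g : (ℕ → X) → ℝ}

theorem scale_le (hk : L * D.n0 ≤ k) {i : ℕ} (hi : i ∈ range L) : i * D.n0 + D.n0 ≤ k := by
  have := Nat.mul_le_mul_right D.n0 (Nat.succ_le_of_lt (mem_range.mp hi))
  rw [Nat.succ_mul] at this
  omega

theorem ext_between (hL : 1 ≤ L) {a b : ℝ} {ξ : ℕ → X}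
    (h : ∀ i ∈ range L, a ≤ D.gam (k - i * D.n0) g (sh (i * D.n0) ξ) ∧
      D.gam (k - i * D.n0) g (sh (i * D.n0) ξ) ≤ b) :
    a ≤ D.ext L k g ξ ∧ D.ext L k g ξ ≤ b := by
  have hL' : (0 : ℝ) < L := by exact_mod_cast hL
  have h1 := card_nsmul_le_sum _ _ _ fun i hi => (h i hi).1
  have h2 := sum_le_card_nsmul _ _ _ fun i hi => (h i hi).2
  rw [card_range, nsmul_eq_mul] at h1 h2
  unfold ext
  rw [le_div_iff₀ hL', div_le_iff₀ hL']
  constructor <;> linarith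

theorem ext_good (hL : 1 ≤ L) (hg : D.Good g) : D.Good (D.ext L k g) := by
  refine ⟨fun ξ => ext_between hL fun i _ =>
    ⟨(hg.1 _).1.trans (le_gam _ hg.1 _), gam_le fun _ _ => (hg.1 _).2⟩, fun η η' h => ?_⟩
  unfold ext
  congr 1
  exact sum_congr rfl fun i _ => gam_congr _ _ (Or.inl (D.shift _ h))

theorem ext_approx (hL : 1 ≤ L) (hk : L * D.n0 ≤ k) (hg : U g) (ξ : ℕ → X) :
    g (sh k ξ) ≤ D.ext L k g ξ ∧ D.ext L k g ξ ≤ g (sh k ξ) + D.om g (sh k ξ) :=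
  ext_between hL fun i hi => by
    have e : sh (k - i * D.n0) (sh (i * D.n0) ξ) = sh k ξ := by
      rw [sh_sh, Nat.sub_add_cancel (by have := scale_le hk hi; omega)]
    rw [← e]
    exact ⟨le_gam _ hg _, gam_le_om _ hg _⟩

/-- The rays near which the extension is not locally constant. -/
def Bad (D : Sys X) (k : ℕ) (ξ : ℕ → X) : Prop :=
  ∃ p < k, ∃ z ∈ D.Y, ∃ y ∈ D.Y, Ag ξ z p ∧ Ag (sh (p + 1) ξ) y (k - (p + 1))

theorem ext_edge (hL : 1 ≤ L) (hk : L * D.n0 ≤ k) (hg : D.Good g) {ξ ξ' : ℕ → X}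
    (h : D.Nb 0 ξ ξ') : |D.ext L k g ξ' - D.ext L k g ξ| ≤ D.om g (sh k ξ) / L ∧
      (¬ D.Bad k ξ → D.ext L k g ξ' = D.ext L k g ξ) := by
  have hL' : (0 : ℝ) < L := by exact_mod_cast hL
  have hom := om_nonneg (D := D) hg.1 (sh k ξ)
  let d : ℕ → ℝ := fun i => D.gam (k - i * D.n0) g (sh (i * D.n0) ξ') -
    D.gam (k - i * D.n0) g (sh (i * D.n0) ξ)
  have e : D.ext L k g ξ' - D.ext L k g ξ = (∑ i ∈ range L, d i) / L := by
    simp only [ext, d, sum_sub_distrib, sub_div]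
  have key : ∃ i0, ∀ i ∈ range L, (i ≠ i0 → d i = 0) ∧ |d i| ≤ D.om g (sh k ξ) ∧
      (¬ D.Bad k ξ → d i = 0) := by
    have triv : ∀ i, D.Nb D.n0 (sh (i * D.n0) ξ) (sh (i * D.n0) ξ') → ∀ i0, (i ≠ i0 → d i = 0) ∧
        |d i| ≤ D.om g (sh k ξ) ∧ (¬ D.Bad k ξ → d i = 0) := fun i hi i0 => by
      have : d i = 0 := sub_eq_zero.mpr (gam_congr _ _ hi).symm
      simp [this, hom]
    rcases h with h | h | ⟨p, -, h⟩
    · exact ⟨0, fun i _ => triv i (Or.inl (D.shift _ h)) 0⟩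
    · exact ⟨0, fun i _ => triv i (Or.inr (Or.inl ⟨D.shY _ h.1, D.shY _ h.2⟩)) 0⟩
    refine ⟨p / D.n0, fun i hi => ?_⟩
    have hj := scale_le hk hi
    by_cases h1 : p < i * D.n0
    · exact triv i (Or.inl (D.shift_le h.2.2 (by omega))) _
    by_cases h2 : i * D.n0 + D.n0 ≤ p
    · exact triv i (Or.inr (Or.inr ⟨_, by omega, h.sh (by omega)⟩)) _
    have hH : D.Hr (sh k ξ) (sh k ξ') := D.shift_le h.2.2 (by omega)
    have e1 : ∀ ζ : ℕ → X, sh (k - i * D.n0) (sh (i * D.n0) ζ) = sh k ζ := fun ζ => by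
      rw [sh_sh, Nat.sub_add_cancel (by omega)]
    refine ⟨fun hne => absurd (Nat.div_eq_of_lt_le (by omega)
      (by rw [Nat.succ_mul]; omega)).symm hne, ?_, fun hb => ?_⟩
    · have a1 := le_gam (D := D) (k - i * D.n0) hg.1 (sh (i * D.n0) ξ)
      have a2 := gam_le_om (D := D) (k - i * D.n0) hg.1 (sh (i * D.n0) ξ)
      have a3 := le_gam (D := D) (k - i * D.n0) hg.1 (sh (i * D.n0) ξ')
      have a4 := gam_le_om (D := D) (k - i * D.n0) hg.1 (sh (i * D.n0) ξ')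
      rw [e1] at a1 a2 a3 a4
      have a5 := om_Hr hg hH
      have a6 := hg.2 _ _ hH
      rw [abs_le]
      constructor <;> simp only [d] <;> linarith
    · obtain ⟨z, hz, hz1, -⟩ := h.1
      have tail : ∀ ζ : ℕ → X, ∀ y, Ag (sh (i * D.n0) ζ) y (k - i * D.n0) →
          Ag (sh (p + 1) ζ) (sh (p + 1 - i * D.n0) y) (k - (p + 1)) := fun ζ y hy => by
        have := hy.sh (p + 1 - i * D.n0) (k - (p + 1)) (by omega)
        rwa [sh_sh, Nat.sub_add_cancel (by omega)] at this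
      simp only [d]
      rw [gam_eq _ hg fun y hy ha => ?_, gam_eq _ hg fun y hy ha => ?_, e1, e1, hg.2 _ _ hH,
        sub_self]
      · exact hb ⟨p, by omega, z, hz, _, D.shY _ hy, hz1, tail ξ y ha⟩
      · obtain ⟨y', hy', H⟩ := D.lift (D.symm h.2.2) (D.shY (p + 1 - i * D.n0) hy)
        exact hb ⟨p, by omega, z, hz, y', hy', hz1, (H _).mp (tail ξ' y ha)⟩
  obtain ⟨i0, hi0⟩ := key
  refine ⟨?_, fun hb => ?_⟩
  · rw [e, abs_div, abs_of_pos hL']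
    refine div_le_div_of_nonneg_right ?_ hL'.le
    by_cases hi : i0 ∈ range L
    · rw [sum_eq_single_of_mem i0 hi fun i h1 h2 => (hi0 i h1).1 h2]
      exact (hi0 i0 hi).2.1
    · rw [sum_eq_zero fun i h1 => (hi0 i h1).1 fun h2 => hi (h2 ▸ h1)]
      simpa using hom
  · rw [← sub_eq_zero, e, sum_eq_zero fun i h1 => (hi0 i h1).2.2 hb, zero_div]

/-- The sets that control the supports. -/
def Z (D : Sys X) (a : ℕ) (η : ℕ → X) : Prop :=
  sh a η ∈ D.Y ∨ (sh (a + D.n0) η ∈ D.Y ∧ ∀ z ∈ D.Y, ¬ Ag η z (a + D.n0))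

theorem Z.mem {a : ℕ} {η : ℕ → X} (h : D.Z a η) : sh (a + D.n0) η ∈ D.Y :=
  h.elim (fun h => D.shY_le h (by omega)) fun h => h.1

theorem ext_supp (hk : L * D.n0 ≤ k) (hg : U g) {a : ℕ} (ha : ∀ η, g η ≠ 0 → D.Z a η)
    (ξ : ℕ → X) (h : D.ext L k g ξ ≠ 0) : D.Z (a + k) ξ := by
  obtain ⟨i, hi, h1⟩ := exists_ne_zero_of_sum_ne_zero (div_ne_zero_iff.mp h).1
  have hj := scale_le hk hi
  obtain ⟨ζ', hN, h2⟩ : ∃ ζ', D.Nb D.n0 (sh (i * D.n0) ξ) ζ' ∧ g (sh (k - i * D.n0) ζ') ≠ 0 := by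
    by_contra hc
    push Not at hc
    exact h1 (le_antisymm (gam_le fun ζ' h => (hc ζ' h).le) ((hg _).1.trans (le_gam _ hg _)))
  have hZ := ha _ h2
  generalize i * D.n0 = j at *
  rcases hN with hN | hN | ⟨p, hp, hN⟩
  · have hH := D.symm (D.shift (k - j) hN)
    rw [sh_sh, Nat.sub_add_cancel (by omega)] at hH
    rcases hZ with hZ | hZ
    · exact Or.inl (by simpa only [sh_sh] using D.memY (D.shift a hH) hZ)
    · refine Or.inr ⟨?_, fun z hz H => ?_⟩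
      · have := D.memY (D.shift (a + D.n0) hH) hZ.1
        rwa [sh_sh, show a + D.n0 + k = a + k + D.n0 by omega] at this
      · obtain ⟨z', hz', H'⟩ := D.lift (D.symm hH) (D.shY k hz)
        exact hZ.2 z' hz' ((H' _).mp (H.sh k _ (by omega)))
  · exact Or.inl (D.shY_le hN.1 (by omega))
  · have hp1 : p + 1 ≤ a + D.n0 + (k - j) := by
      by_contra hc
      rcases hZ with hZ | hZ
      · rw [sh_sh] at hZ
        exact (hN.2.1.sh (n := a + (k - j)) (by omega)).not_ag (by omega) hZ fun _ _ => rfl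
      · obtain ⟨z, hz, h3, -⟩ := hN.2.1
        exact hZ.2 _ (D.shY (k - j) hz) (h3.sh _ _ (by omega))
    have h3 := hZ.mem
    rw [sh_sh] at h3
    have h4 := D.memY (D.symm (D.shift_le hN.2.2 hp1)) h3
    rw [sh_sh, show a + D.n0 + (k - j) + j = a + k + D.n0 by omega] at h4
    exact Or.inr ⟨h4, fun z hz H => hN.1.not_ag hp (D.shY j hz) (H.sh j _ (by omega))⟩

end Sys

end Pool.Agent.MP_622d34_al
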