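import Pool.Agent.MP_622d34_al.Tree

/-! Amenability of groups of quadratic activity relative to an amenable self-similar group. -/

namespace Pool.Agent.MP_622d34_al

open Finset

variable {Γ X : Type*} [Group Γ] [MulAction Γ X]

namespace SS

variable {S : SS Γ X} [Fintype X] [Nonempty X]

theorem amen_wr {H : Subgroup Γ} (h : Amen (H : Set Γ)) : ∀ d, Amen (S.wr H d : Set Γ)
  | 0 => h.mono fun g hg => hg fun _ => Classical.arbitrary X
  | d + 1 => by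
    classical
    have hm : MulOn (S.wr H (d + 1)) (MulAction.toPermHom Γ X) := fun a _ b _ => map_mul _ a b
    have hfix : ∀ g ∈ hm.ker, ∀ x : X, g • x = x := fun g hg x => DFunLike.congr_fun hg.2 x
    refine amen_ext hm (amen_finite _) (amen_multi univ (fun x g => S.sc g x) hm.ker
      (fun x _ a _ b hb => by beta_reduce; rw [S.mul, hfix b hb]) (fun x _ => (amen_wr h d).mono ?_)
      (amen_one.mono ?_))
    · rintro _ ⟨g, hg, rfl⟩
      exact wr_succ.mp hg.1 x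
    · rintro g ⟨hg, h1⟩
      refine S.faith (fun t => t = g ∨ t = 1) ?_ g (Or.inl rfl)
      rintro t (rfl | rfl) x
      · exact ⟨hfix _ hg x, Or.inr (h1 x (mem_univ x))⟩
      · exact ⟨one_smul _ x, Or.inr (S.sc_one x)⟩

theorem exists_wr {H : Subgroup Γ} (hH : S.Sim H) {T : Set Γ} (hT : T.Finite) :
    ∃ d, ∀ t ∈ T, t ∈ (S.Q H hH 0).1 → t ∈ S.wr H d := by
  have : ∀ t, ∃ d, t ∈ (S.Q H hH 0).1 → t ∈ S.wr H d := fun t => by
    by_cases h : t ∈ (S.Q H hH 0).1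
    · exact h.imp fun d hd _ => hd
    · exact ⟨0, fun h' => absurd h' h⟩
  choose d hd using this
  exact ⟨hT.toFinset.sup d, fun t ht h =>
    wr_mono hH (le_sup (hT.mem_toFinset.mpr ht)) (hd t h)⟩

theorem amen_Q_zero {H : Subgroup Γ} (hH : S.Sim H) (h : Amen (H : Set Γ)) :
    Amen ((S.Q H hH 0).1 : Set Γ) := amen_local fun T hT => by
  obtain ⟨d, hd⟩ := exists_wr hH T.finite_toSet
  exact (amen_wr h d).mono fun t ht => hd t ht (hT ht)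

/-- Elements that fix the rays of `A` and have sections in `B` along all other rays. -/
def fixA (S : SS Γ X) (B : Subgroup Γ) (hB : S.Sim B) (A : Set (ℕ → X)) : Subgroup Γ where
  carrier := {g | (∀ a ∈ A, S.ac g a = a) ∧ ∀ ξ, ξ ∉ A → ∃ n, S.sr g ξ n ∈ B}
  one_mem' := ⟨fun a _ => S.ac_one a, fun _ _ => ⟨0, B.one_mem⟩⟩
  mul_mem' := fun {g h} hg hh => ⟨fun a ha => by rw [ac_mul, hh.1 a ha, hg.1 a ha], fun ξ hξ => by
    obtain ⟨n, hn⟩ := hh.2 ξ hξ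
    obtain ⟨m, hm⟩ := hg.2 (S.ac h ξ) fun e => hξ (by
      have := congrArg (S.ac h⁻¹) (hh.1 _ e)
      rw [ac_inv, ac_inv] at this
      rwa [← this])
    exact ⟨max n m, by
      rw [sr_mul]
      exact B.mul_mem (hB.le hm (le_max_right _ _)) (hB.le hn (le_max_left _ _))⟩⟩
  inv_mem' := fun {g} hg => ⟨fun a ha => by rw [← hg.1 a ha, ac_inv, hg.1 a ha], fun ξ hξ => by
    obtain ⟨n, hn⟩ := hg.2 (S.ac g⁻¹ ξ) fun e => hξ (by
      have := hg.1 _ e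
      rw [inv_ac] at this
      rwa [this])
    exact ⟨n, by rw [← S.inv_ac g ξ, sr_inv]; exact B.inv_mem hn⟩⟩

theorem amen_fixA (hf : ∀ g, (S.reach g).Finite) {B : Subgroup Γ} (hB : S.Sim B) (hC : S.Cl B)
    (h : Amen (B : Set Γ)) (A : Set (ℕ → X)) : Amen (S.fixA B hB A : Set Γ) := by
  classical
  rcases A.eq_empty_or_nonempty with rfl | ⟨a0, ha0⟩
  · refine h.mono fun g hg => ?_
    by_contra hn
    obtain ⟨ξ, hξ⟩ := hC.ray hn
    obtain ⟨n, hn⟩ := hg.2 ξ (Set.notMem_empty ξ)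
    exact hξ n hn
  refine amen_local fun T hT => ?_
  let off : (ℕ → X) × ℕ → Set X := fun p => {x | ∀ a ∈ A, Ag p.1 a p.2 → a p.2 ≠ x}
  let f : (ℕ → X) × ℕ → (T → Γ) × Set X := fun p => (fun t => S.sr t p.1 p.2, off p)
  have hfin : (f '' {p | p.1 ∈ A}).Finite :=
    ((Set.Finite.pi' fun t : T => hf t).prod Set.finite_univ).subset (by
      rintro _ ⟨p, -, rfl⟩
      exact ⟨fun t => ⟨p.1, p.2, rfl⟩, trivial⟩)
  obtain ⟨I, hI, hI'⟩ := Finset.subset_set_image_iff.mp hfin.coe_toFinset.le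
  have hrep : ∀ p : (ℕ → X) × ℕ, p.1 ∈ A → ∃ i ∈ I, f i = f p := fun p hp =>
    mem_image.mp (hI' ▸ hfin.mem_toFinset.mpr ⟨p, hp, rfl⟩)
  have hmul : ∀ g, ∀ h ∈ S.fixA B hB A, ∀ a ∈ A, ∀ n,
      S.sr (g * h) a n = S.sr g a n * S.sr h a n := fun g h hh a ha n => by
    rw [sr_mul, hh.1 a ha]
  have hinv : ∀ g ∈ S.fixA B hB A, ∀ a ∈ A, ∀ n, S.sr g⁻¹ a n = (S.sr g a n)⁻¹ :=
    fun g hg a ha n => by rw [← sr_inv, hg.1 a ha]
  let K : Subgroup Γ :=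
    { carrier := {g | g ∈ S.fixA B hB A ∧ ∀ p i : (ℕ → X) × ℕ, p.1 ∈ A → i.1 ∈ A → f i = f p →
        S.sr g i.1 i.2 = S.sr g p.1 p.2}
      one_mem' := ⟨one_mem _, fun p i _ _ _ => by rw [sr_one, sr_one]⟩
      mul_mem' := fun {g h} hg hh => ⟨mul_mem hg.1 hh.1, fun p i hp hi e => by
        rw [hmul g h hh.1 _ hp, hmul g h hh.1 _ hi, hg.2 p i hp hi e, hh.2 p i hp hi e]⟩
      inv_mem' := fun {g} hg => ⟨inv_mem hg.1, fun p i hp hi e => by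
        rw [hinv g hg.1 _ hp, hinv g hg.1 _ hi, hg.2 p i hp hi e]⟩ }
  let K' : Subgroup Γ :=
    { carrier := {g | g ∈ K ∧ ∀ a ∈ A, ∀ n, ∀ x : X, S.sr g a n • x = x}
      one_mem' := ⟨one_mem _, fun a _ n x => by rw [sr_one, one_smul]⟩
      mul_mem' := fun {g h} hg hh => ⟨mul_mem hg.1 hh.1, fun a ha n x => by
        rw [hmul g h hh.1.1 a ha, mul_smul, hh.2 a ha, hg.2 a ha]⟩
      inv_mem' := fun {g} hg => ⟨inv_mem hg.1, fun a ha n x => by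
        rw [hinv g hg.1.1 a ha, inv_smul_eq_iff, hg.2 a ha]⟩ }
  have h1 : Amen (K' : Set Γ) := by
    refine amen_multi ((I ×ˢ (univ : Finset X)).filter fun q => q.2 ∈ off q.1)
      (fun q g => S.sc (S.sr g q.1.1 q.1.2) q.2) K' (fun q hq a _ b hb => ?_)
      (fun q hq => h.mono ?_) (amen_one.mono ?_)
    · have := hI (mem_product.mp (mem_filter.mp hq).1).1
      beta_reduce
      rw [hmul a b hb.1.1 _ this, S.mul, hb.2 _ this]
    · rintro _ ⟨g, hg, rfl⟩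
      by_contra hn
      obtain ⟨z, hz, hz'⟩ := hC.ray' hB (g := g) (η := cat q.1.1 q.1.2 fun _ => q.2)
        (p := 1 + q.1.2) (by rw [sr_cat]; exact hn)
      obtain ⟨n, hn⟩ := hg.1.1.2 z fun hA => (mem_filter.mp hq).2 z hA
        ((ag_cat _ _ _).trans (hz.mono (by omega))) (by rw [← hz _ (by omega)]; simp [cat])
      exact hz' n hn
    · rintro g ⟨hg, h2⟩
      refine S.faith (fun t => t = 1 ∨ ∃ a ∈ A, ∃ n, t = S.sr g a n) ?_ g
        (Or.inr ⟨a0, ha0, 0, rfl⟩)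
      rintro t (rfl | ⟨a, ha, n, rfl⟩) x
      · exact ⟨one_smul _ x, Or.inl (S.sc_one x)⟩
      refine ⟨hg.2 a ha n x, ?_⟩
      by_cases hx : x ∈ off (a, n)
      · obtain ⟨i, hi, e⟩ := hrep (a, n) ha
        left
        rw [← hg.1.2 (a, n) i ha (hI hi) e]
        exact h2 (i, x) (mem_filter.mpr ⟨mem_product.mpr ⟨hi, mem_univ _⟩,
          (congrArg Prod.snd e).ge hx⟩)
      · simp only [off, Set.mem_ofPred_eq, not_forall, not_not] at hx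
        obtain ⟨a', ha', h3, rfl⟩ := hx
        exact Or.inr ⟨a', ha', n + 1, by rw [S.sr_ag g h3]; rfl⟩
  have h2 : Amen (K : Set Γ) := by
    refine amen_multi I (fun i g => MulAction.toPermHom Γ X (S.sr g i.1 i.2)) K
      (fun i hi a _ b hb => by beta_reduce; rw [hmul a b hb.1 _ (hI hi), map_mul])
      (fun _ _ => amen_finite _) (h1.mono ?_)
    rintro g ⟨hg, h3⟩
    refine ⟨hg, fun a ha n x => ?_⟩
    obtain ⟨i, hi, e⟩ := hrep (a, n) ha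
    rw [← hg.2 (a, n) i ha (hI hi) e]
    exact DFunLike.congr_fun (h3 i hi) x
  exact h2.mono fun t ht => ⟨hT ht, fun p i _ _ e => congrFun (congrArg Prod.fst e) ⟨t, ht⟩⟩

variable {H : Subgroup Γ} {hH : S.Sim H}

theorem exists_sys (horb : ∀ g ξ, (∀ n, S.sr g ξ n ∉ H) → {η | ∃ h ∈ H, η = S.ac h ξ}.Finite)
    {T : Set Γ} (hT : T.Finite) (hS : S.Sim T) (hi : ∀ t ∈ T, t⁻¹ ∈ T)
    (h3 : ∀ t ∈ T, t ∈ (S.Q H hH 3).1) : ∃ (D : Sys X) (C c : ℕ), ∀ t ∈ T, D.Dyn (S.act t) C c ∧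
      ∀ j < 3, t ∈ (S.Q H hH (j + 1)).1 → ∀ ξ, (∀ n, S.sr t ξ n ∉ (S.Q H hH j).1) → ξ ∈ D.Y := by
  classical
  obtain ⟨d, hd⟩ := exists_wr hH hT
  have hW := wr_sim hH d
  let Y0 : Set (ℕ → X) := {ξ | ∃ t ∈ T, ∃ j < 3, t ∈ (S.Q H hH (j + 1)).1 ∧
    ∀ n, S.sr t ξ n ∉ (S.Q H hH j).1}
  have hsr : ∀ t ∈ T, ∀ ξ n, S.sr t ξ n ∈ T := fun t ht ξ n => hS.le (m := 0) ht n.zero_le
  have hQ : ∀ j, ∀ h ∈ H, h ∈ (S.Q H hH j).1 := fun j h hh => by
    induction j with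
    | zero => exact ⟨0, fun _ => hh⟩
    | succ j ih => exact ⟨0, fun n => ((S.Q H hH j).2.cnt ih n).le⟩
  have f0 : Y0.Finite := (hT.biUnion fun t _ => (Set.finite_lt_nat 3).biUnion fun j _ =>
    (show {ξ | t ∈ (S.Q H hH (j + 1)).1 ∧ ∀ n, S.sr t ξ n ∉ (S.Q H hH j).1}.Finite by
      by_cases h : t ∈ (S.Q H hH (j + 1)).1
      · exact (nxt_sing (hB := (S.Q H hH j).2) h).subset fun ξ hξ => hξ.2
      · simp [h])).subset fun ξ ⟨t, ht, j, hj, h⟩ => by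
        simp only [Set.mem_iUnion]
        exact ⟨t, ht, j, hj, h⟩
  have s0 : ∀ y ∈ Y0, ∀ n, sh n y ∈ Y0 := fun y ⟨t, ht, j, hj, h1, h2⟩ n =>
    ⟨S.sr t y n, hsr t ht y n, j, hj, (S.Q H hH (j + 1)).2.le (m := 0) h1 n.zero_le,
      fun m => by rw [← sr_add]; exact h2 _⟩
  have i0 : ∀ t ∈ T, ∀ j < 3, t ∈ (S.Q H hH (j + 1)).1 → ∀ y,
      (∀ n, S.sr t y n ∉ (S.Q H hH j).1) → y ∈ Y0 ∧ S.ac t y ∈ Y0 := fun t ht j hj h1 y h2 =>
    ⟨⟨t, ht, j, hj, h1, h2⟩, t⁻¹, hi t ht, j, hj, inv_mem h1, fun n h => by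
      rw [sr_inv] at h
      exact h2 n (inv_mem_iff.mp h)⟩
  let Y : Set (ℕ → X) := {η | ∃ y ∈ Y0, ∃ h ∈ S.wr H d, η = S.ac h y}
  have fY : Y.Finite := (f0.biUnion fun y hy =>
    (show {η | ∃ h ∈ S.wr H d, η = S.ac h y}.Finite by
      obtain ⟨t, -, j, -, -, h⟩ := s0 y hy d
      refine (finite_sh (horb t _ fun n hn => h n (hQ j _ hn)) d).subset ?_
      rintro _ ⟨h, hh, rfl⟩
      exact ⟨_, hh y, S.sh_ac h y d⟩)).subset fun η ⟨y, hy, h⟩ => by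
        simp only [Set.mem_iUnion]
        exact ⟨y, hy, h⟩
  have y0 : ∀ y ∈ Y0, y ∈ fY.toFinset := fun y hy =>
    fY.mem_toFinset.mpr ⟨y, hy, 1, one_mem _, (S.ac_one y).symm⟩
  have hY : ∀ h ∈ S.wr H d, ∀ z ∈ fY.toFinset, S.ac h z ∈ fY.toFinset := fun h hh z hz => by
    obtain ⟨y, hy, h', hh', rfl⟩ := fY.mem_toFinset.mp hz
    exact fY.mem_toFinset.mpr ⟨y, hy, h * h', mul_mem hh hh', (S.ac_mul _ _ _).symm⟩
  obtain ⟨n0, hn0⟩ := exists_sep fY.toFinset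
  let D : Sys X :=
    { Y := fY.toFinset
      Hr := fun ξ η => ∃ h ∈ S.wr H d, η = S.ac h ξ
      n0 := n0
      refl := fun ξ => ⟨1, one_mem _, (S.ac_one ξ).symm⟩
      symm := by
        rintro ξ _ ⟨h, hh, rfl⟩
        exact ⟨h⁻¹, inv_mem hh, (S.ac_inv h ξ).symm⟩
      trans := by
        rintro ξ _ _ ⟨h, hh, rfl⟩ ⟨h', hh', rfl⟩
        exact ⟨h' * h, mul_mem hh' hh, (S.ac_mul _ _ _).symm⟩
      shift := by
        rintro ξ _ n ⟨h, hh, rfl⟩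
        exact ⟨_, hW.le (m := 0) hh n.zero_le, S.sh_ac h ξ n⟩
      lift := by
        rintro ξ _ z ⟨h, hh, rfl⟩ hz
        exact ⟨_, hY h hh z hz, fun p => S.ac_ag_iff h⟩
      shY := fun n hy => by
        obtain ⟨y, hy', h, hh, rfl⟩ := fY.mem_toFinset.mp hy
        rw [sh_ac]
        exact hY _ (hW.le (m := 0) hh n.zero_le) _ (y0 _ (s0 y hy' n))
      sep := fun hy hz => hn0 _ hy _ hz }
  have hN : ∀ t ∈ T, t ∈ (S.Q H hH 1).1 → ∀ η, D.Nb 0 η (S.ac t η) := fun t ht h1 η => by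
    by_cases h0 : ∃ n, S.sr t η n ∈ (S.Q H hH 0).1
    · rcases hp : Nat.find h0 with _ | p
      · have a1 := Nat.find_spec h0
        rw [hp] at a1
        exact Or.inl ⟨t, hd t ht a1, rfl⟩
      · have a1 := Nat.find_spec h0
        rw [hp] at a1
        obtain ⟨z, hz, hz'⟩ := (Q_cl 0).ray' (S.Q H hH 0).2 (Nat.find_min h0 (m := p) (by omega))
        have a2 : ¬ Ag η z (p + 1) := fun h => hz' (p + 1) (S.sr_ag t h ▸ a1)
        have a3 := i0 t ht 0 (by omega) h1 z hz'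
        exact Or.inr (Or.inr ⟨p, p.zero_le, ⟨z, y0 _ a3.1, hz, a2⟩, ⟨_, y0 _ a3.2, S.ac_ag t hz,
          fun h => a2 ((S.ac_ag_iff t).mpr h)⟩, _, hd _ (hsr t ht η _) a1, S.sh_ac t η _⟩)
    · have a3 := i0 t ht 0 (by omega) h1 η (not_exists.mp h0)
      exact Or.inr (Or.inl ⟨y0 _ a3.1, y0 _ a3.2⟩)
  have hc : ∀ t ∈ T, ∀ y ∈ D.Y, ∀ j ≤ 3, (∃ n, S.sr t y n ∈ (S.Q H hH j).1) →
      ∃ m, sh m (S.ac t y) ∈ D.Y := fun t ht y hy j hj => by
    induction j with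
    | zero => exact fun ⟨n, hn⟩ => ⟨n, by
        rw [sh_ac]
        exact hY _ (hd _ (hsr t ht y n) hn) _ (D.shY n hy)⟩
    | succ j ih =>
      rintro ⟨n, hn⟩
      by_cases h : ∃ n, S.sr t y n ∈ (S.Q H hH j).1
      · exact ih (by omega) h
      · exact ⟨n, by
          rw [sh_ac]
          exact y0 _ (i0 _ (hsr t ht y n) j (by omega) hn _ fun m hm =>
            h ⟨m + n, by rwa [sr_add]⟩).2⟩
  obtain ⟨c, hc'⟩ : ∃ c, ∀ t ∈ T, ∀ y ∈ D.Y, sh c (S.ac t y) ∈ D.Y := by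
    choose! m hm using fun t ht y hy => hc t ht y hy 3 le_rfl ⟨0, h3 t ht⟩
    exact ⟨(hT.toFinset ×ˢ D.Y).sup fun q => m q.1 q.2, fun t ht y hy => D.shY_le (hm t ht y hy)
      (le_sup (f := fun q : Γ × (ℕ → X) => m q.1 q.2) (b := (t, y))
        (mem_product.mpr ⟨hT.mem_toFinset.mpr ht, hy⟩))⟩
  have hfw : ∀ t ∈ T, ∀ n ξ, sh n ξ ∈ D.Y → sh (n + c) (S.ac t ξ) ∈ D.Y := fun t ht n ξ h => by
    rw [Nat.add_comm, ← sh_sh, sh_ac]
    exact hc' _ (hsr t ht ξ n) _ h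
  obtain ⟨C, hC⟩ := linear_bound (j := 1) hT hS h3
  refine ⟨D, C, c, fun t ht => ⟨⟨fun _ _ _ => S.ac_ag t, fun a => ?_, hfw t ht, fun n ξ h => ?_⟩,
    fun j hj h1 ξ h2 => y0 _ (i0 t ht j hj h1 ξ h2).1⟩⟩
  · refine (cnt_cov _ a t).mono (fun ξ h h' => h ?_) (hC t ht a)
    change D.Nb 0 _ (sh a (S.ac t ξ))
    rw [sh_ac]
    exact hN _ (hsr t ht ξ a) h' _
  · simpa only [ac_inv] using hfw t⁻¹ (hi t ht) n (S.ac t ξ) h

theorem amen_step (hf : ∀ g, (S.reach g).Finite)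
    (horb : ∀ g ξ, (∀ n, S.sr g ξ n ∉ H) → {η | ∃ h ∈ H, η = S.ac h ξ}.Finite)
    (h3 : ∀ g, g ∈ (S.Q H hH 3).1) {j : ℕ} (hj : j < 3) (h : Amen ((S.Q H hH j).1 : Set Γ)) :
    Amen ((S.Q H hH (j + 1)).1 : Set Γ) := by
  classical
  have hB := (S.Q H hH j).2
  let R : Finset (ℕ → X) → Γ → Finset (ℕ → X) → Prop := fun A g A' =>
    A' = A.image (S.act g) ∧ ∀ ξ, ξ ∉ A → ∃ n, S.sr g ξ n ∈ (S.Q H hH j).1
  have hmem : ∀ (A : Finset (ℕ → X)) g ξ, S.ac g ξ ∈ A.image (S.act g) ↔ ξ ∈ A := fun A g ξ =>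
    (S.act g).injective.mem_finset_image
  have hrefl : ∀ A, R A 1 A := fun A => ⟨by simp, fun _ _ => ⟨0, one_mem _⟩⟩
  have hsymm : ∀ A g A', R A g A' → R A' g⁻¹ A := by
    rintro A g _ ⟨rfl, h1⟩
    refine ⟨by simp [image_image], fun ξ hξ => ?_⟩
    obtain ⟨n, hn⟩ := h1 (S.ac g⁻¹ ξ) fun e => hξ (S.inv_ac g ξ ▸ (hmem A g _).mpr e)
    exact ⟨n, by rw [← S.inv_ac g ξ, sr_inv]; exact inv_mem hn⟩
  have htrans : ∀ A g A' g' A'', R A g A' → R A' g' A'' → R A (g' * g) A'' := by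
    rintro A g _ g' _ ⟨rfl, h1⟩ ⟨rfl, h2⟩
    refine ⟨by simp [image_image], fun ξ hξ => ?_⟩
    obtain ⟨n, hn⟩ := h1 ξ hξ
    obtain ⟨m, hm⟩ := h2 (S.ac g ξ) fun e => hξ ((hmem A g ξ).mp e)
    exact ⟨max n m, by
      rw [sr_mul]
      exact mul_mem (hB.le hm (le_max_right _ _)) (hB.le hn (le_max_left _ _))⟩
  obtain ⟨p, hp⟩ := Mean.compact (fun (k : (S.Q H hH (j + 1)).1) (A : Finset (ℕ → X)) =>
      A.image (S.act k)) (fun k => {A | R A k (A.image (S.act k))}) fun T ε hε => by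
    let T' : Set Γ := ⋃ k ∈ T, S.reach k
    have hT' : T'.Finite := T.finite_toSet.biUnion fun k _ => hf k
    have hS' : S.Sim T' := fun t ht x => by
      simp only [T', Set.mem_iUnion] at ht ⊢
      obtain ⟨k, hk, ht⟩ := ht
      exact ⟨k, hk, S.reach_sub ht (S.sc_reach t x)⟩
    obtain ⟨D, C, c, hD⟩ := exists_sys (hH := hH) horb (hT'.union hT'.inv) (fun t ht x => by
      rcases ht with ht | ht
      · exact Or.inl (hS' t ht x)
      · exact Or.inr (by rw [Set.mem_inv, ← sc_inv]; exact hS' _ ht _))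
      (fun t ht => ht.symm.imp id fun h => by simpa using h) fun t _ => h3 t
    obtain ⟨M, h1, h2⟩ := D.exists_rand C c hε
    refine ⟨M, fun k hk => ?_⟩
    obtain ⟨h4, h5⟩ := hD k (Or.inl (Set.mem_biUnion hk (S.self_reach _)))
    refine ⟨h1.mono fun A hA => ⟨rfl, fun ξ hξ => ?_⟩, h2 _ h4⟩
    by_contra hn
    exact hξ (hA (h5 j hj k.2 ξ (not_exists.mp hn)))
  refine amen_of_groupoid R hrefl hsymm htrans (fun A => ?_) p _ fun s hs =>
    ⟨_, (hp ⟨s, hs⟩).2, (hp ⟨s, hs⟩).1⟩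
  let K : Subgroup Γ :=
    { carrier := {g | R A g A}
      one_mem' := hrefl A
      mul_mem' := fun ha hb => htrans _ _ _ _ _ hb ha
      inv_mem' := fun ha => hsymm _ _ _ ha }
  exact amen_of_fix S.act K A.finite_toSet (fun g hg a => by
    have := hmem A g a
    rw [← hg.1] at this
    exact this)
    ((amen_fixA hf hB (Q_cl j) h A).mono fun g hg => ⟨hg.2, hg.1.2⟩)

theorem amen_main (hH : S.Sim H) (h : Amen (H : Set Γ)) (hf : ∀ g, (S.reach g).Finite)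
    (horb : ∀ g ξ, (∀ n, S.sr g ξ n ∉ H) → {η | ∃ h ∈ H, η = S.ac h ξ}.Finite)
    (hq : ∀ g, ∃ C, ∀ n, S.cnt H n g ≤ C * (n + 1) ^ 2) : Amen (Set.univ : Set Γ) := by
  have h3 : ∀ g, g ∈ (S.Q H hH 3).1 := fun g => (hq g).elim fun _ hC => mem_Q_three (hf g) hC
  exact (amen_step hf horb h3 (j := 2) (by omega) (amen_step hf horb h3 (j := 1) (by omega)
    (amen_step hf horb h3 (j := 0) (by omega) (amen_Q_zero hH h)))).mono fun g _ => h3 g

end SS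

end Pool.Agent.MP_622d34_al
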