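import Mathlib.Algebra.BigOperators.Field
import Mathlib.Data.Int.Star
import Mathlib.Analysis.PSeries
import Pool.Agent.MP_622d34_al.Cut

/-! Potentials of small energy for maps whose non-neighbour edges grow linearly. -/

namespace Pool.Agent.MP_622d34_al

open Finset

variable {X : Type*}

/-- The rays with property `P` have at most `N` initial segments of length `a`. -/
def Cov (P : (ℕ → X) → Prop) (a N : ℕ) : Prop :=
  ∃ B : Finset (ℕ → X), B.card ≤ N ∧ ∀ ξ, P ξ → ∃ β ∈ B, Ag ξ β a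

theorem Cov.mono {P P' : (ℕ → X) → Prop} {a N N' : ℕ} (h : Cov P a N) (hP : ∀ ξ, P' ξ → P ξ)
    (hN : N ≤ N') : Cov P' a N' := by
  obtain ⟨B, h1, h2⟩ := h
  exact ⟨B, h1.trans hN, fun ξ hξ => h2 ξ (hP ξ hξ)⟩

theorem Cov.card_le {P : (ℕ → X) → Prop} {a N : ℕ} (h : Cov P a N) (T : Finset (ℕ → X))
    (hT : ∀ ξ ∈ T, P ξ) (hs : ∀ ξ ∈ T, ∀ η ∈ T, Ag ξ η a → ξ = η) : T.card ≤ N := by
  obtain ⟨B, h1, h2⟩ := h
  choose! β hβ using h2
  refine le_trans (card_le_card_of_injOn β (fun ξ hξ => (hβ ξ (hT ξ hξ)).1)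
    fun ξ hξ η hη e => hs ξ hξ η hη ?_) h1
  exact (hβ ξ (hT ξ hξ)).2.trans (e ▸ (hβ η (hT η hη)).2.symm)

theorem Cov.sum_le {P : (ℕ → X) → Prop} {a N : ℕ} (h : Cov P a N) {ψ : (ℕ → X) → ℝ} {c : ℝ}
    (h0 : ∀ η, 0 ≤ ψ η) (hc : ∀ T : Finset (ℕ → X), ∑ η ∈ T, ψ η ≤ c) (T : Finset (ℕ → X))
    (hT : ∀ ξ ∈ T, P ξ) : ∑ ξ ∈ T, ψ (sh a ξ) ≤ N * c := by
  classical
  rw [sum_comp ψ (sh a)]
  refine le_trans (sum_le_sum fun η _ => ?_) ((mul_sum _ _ _).symm.trans_le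
    (mul_le_mul_of_nonneg_left (hc (T.image (sh a))) (Nat.cast_nonneg N)))
  rw [nsmul_eq_mul]
  refine mul_le_mul_of_nonneg_right (Nat.cast_le.mpr (h.card_le _
    (fun ξ hξ => hT ξ (mem_filter.mp hξ).1) fun ξ hξ ζ hζ e => ?_)) (h0 η)
  exact e.ext ((mem_filter.mp hξ).2.trans (mem_filter.mp hζ).2.symm)

theorem Cov.add [Fintype X] {P : (ℕ → X) → Prop} {a N : ℕ} (h : Cov P a N) (k : ℕ) :
    Cov P (a + k) (N * Fintype.card X ^ k) := by
  classical
  obtain ⟨B, h1, h2⟩ := h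
  refine ⟨(B ×ˢ (univ : Finset (Fin k → X))).image fun q i =>
    if hi : a ≤ i ∧ i - a < k then q.2 ⟨i - a, hi.2⟩ else q.1 i, ?_, fun ξ hξ => ?_⟩
  · refine card_image_le.trans ?_
    rw [card_product, card_univ, Fintype.card_fun, Fintype.card_fin]
    exact Nat.mul_le_mul_right _ h1
  · obtain ⟨β, hβ, h3⟩ := h2 ξ hξ
    refine ⟨_, mem_image_of_mem _ (mem_product.mpr
      ⟨hβ, mem_univ _⟩ : (β, fun j : Fin k => ξ (j + a)) ∈ _), fun i hi => ?_⟩
    by_cases h4 : a ≤ i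
    · simp only [dif_pos (⟨h4, by omega⟩ : a ≤ i ∧ i - a < k), Nat.sub_add_cancel h4]
    · rw [dif_neg fun h => h4 h.1]
      exact h3 i (by omega)

theorem cov_zero [Nonempty X] (P : (ℕ → X) → Prop) : Cov P 0 1 :=
  ⟨{fun _ => Classical.arbitrary X}, by simp, fun _ _ => ⟨_, mem_singleton_self _,
    fun i hi => absurd hi (Nat.not_lt_zero i)⟩⟩

theorem finite_sh [Finite X] {Y : Set (ℕ → X)} (hY : Y.Finite) (a : ℕ) :
    {ξ | sh a ξ ∈ Y}.Finite := by
  refine ((Set.finite_univ (α := Fin a → X)).prod hY).preimage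
    (f := fun ξ : ℕ → X => ((fun i : Fin a => ξ i), sh a ξ)) (fun ξ _ η _ e => ?_) |>.subset
    fun ξ hξ => ⟨trivial, hξ⟩
  exact Ag.ext (fun i hi => congrFun (congrArg Prod.fst e) ⟨i, hi⟩) (congrArg Prod.snd e)

theorem sq_sum_disj (a : ℕ → ℝ) (h : ∀ i j, i < j → a i ≠ 0 → a j = 0) (n : ℕ) :
    (∑ i ∈ range n, a i) ^ 2 = ∑ i ∈ range n, a i ^ 2 := by
  induction n with
  | zero => simp
  | succ n ih =>
    have : (∑ i ∈ range n, a i) * a n = 0 := by
      rw [sum_mul]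
      refine sum_eq_zero fun i hi => ?_
      by_cases h1 : a i = 0
      · rw [h1, zero_mul]
      · rw [h i n (mem_range.mp hi) h1, mul_zero]
    rw [sum_range_succ, sum_range_succ, ← ih]
    linarith

theorem sum_half_le (i : ℕ) : ∑ n ∈ range (i + 1), (1 / 2 : ℝ) ^ (i - n) ≤ 2 := by
  have := sum_range_reflect (fun n => (1 / 2 : ℝ) ^ n) (i + 1)
  simp only [Nat.add_sub_cancel] at this
  rw [this]
  exact sum_geometric_two_le _

namespace Sys

variable {D : Sys X} {L k : ℕ}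

theorem bad_cov [Fintype X] (k : ℕ) :
    Cov (D.Bad k) k (k * (D.Y.card * (Fintype.card X * D.Y.card))) := by
  classical
  refine ⟨(range k ×ˢ D.Y ×ˢ (univ : Finset X) ×ˢ D.Y).image fun q i =>
    if i < q.1 then q.2.1 i else if i = q.1 then q.2.2.1 else q.2.2.2 (i - (q.1 + 1)),
    card_image_le.trans (by simp), ?_⟩
  rintro ξ ⟨p, hp, z, hz, y, hy, h1, h2⟩
  refine ⟨_, mem_image_of_mem _ (show (p, z, ξ p, y) ∈ _ by simp [hp, hz, hy]), fun i hi => ?_⟩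
  dsimp only
  split_ifs with h3 h4
  · exact h1 i h3
  · rw [h4]
  · have := h2 (i - (p + 1)) (by omega)
    rwa [sh, Nat.sub_add_cancel (by omega)] at this

/-- Bound on the total squared oscillation. -/
def En (D : Sys X) (g : (ℕ → X) → ℝ) (c : ℝ) : Prop :=
  ∀ T : Finset (ℕ → X), ∑ η ∈ T, D.om g η ^ 2 ≤ c

theorem om_ext (hL : 1 ≤ L) (hk : L * D.n0 ≤ k) {g : (ℕ → X) → ℝ} (hg : D.Good g) (ξ : ℕ → X) :
    D.om (D.ext L k g) ξ ≤ D.om g (sh k ξ) / L ∧ (¬ D.Bad k ξ → D.om (D.ext L k g) ξ = 0) :=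
  ⟨om_le fun _ h => (ext_edge hL hk hg h).1, fun hb => le_antisymm
    (om_le fun _ h => by rw [(ext_edge hL hk hg h).2 hb]; simp)
    (om_nonneg (ext_good hL hg).1 ξ)⟩

theorem En.ext [Fintype X] (hL : 1 ≤ L) (hk : L * D.n0 ≤ k)
    (hb : 2 * (k * (D.Y.card * (Fintype.card X * D.Y.card))) ≤ L ^ 2) {g : (ℕ → X) → ℝ}
    (hg : D.Good g) {c : ℝ} (h : D.En g c) : D.En (D.ext L k g) (c / 2) := by
  classical
  intro T
  have hL' : (0 : ℝ) < L := by exact_mod_cast hL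
  have hc : 0 ≤ c := by simpa using h ∅
  have h1 := (bad_cov (D := D) k).sum_le (fun η => sq_nonneg (D.om g η)) h (T.filter (D.Bad k))
    fun ξ hξ => (mem_filter.mp hξ).2
  have hb' : 2 * ((k * (D.Y.card * (Fintype.card X * D.Y.card)) : ℕ) : ℝ) ≤ (L : ℝ) ^ 2 := by
    exact_mod_cast hb
  calc _ = ∑ ξ ∈ T.filter (D.Bad k), D.om (D.ext L k g) ξ ^ 2 :=
        (sum_filter_of_ne fun ξ _ hne => by
          by_contra hB
          exact hne (by rw [(om_ext hL hk hg ξ).2 hB]; simp)).symm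
    _ ≤ ∑ ξ ∈ T.filter (D.Bad k), D.om g (sh k ξ) ^ 2 / L ^ 2 := sum_le_sum fun ξ _ => by
        rw [← div_pow]
        exact pow_le_pow_left₀ (om_nonneg (ext_good hL hg).1 ξ) (om_ext hL hk hg ξ).1 2
    _ ≤ c / 2 := by
        rw [← sum_div, div_le_iff₀ (by positivity)]
        nlinarith

/-- The iterated extensions of the indicator of `Y`. -/
noncomputable def pot (D : Sys X) (L k : ℕ) : ℕ → (ℕ → X) → ℝ
  | 0 => (D.Y : Set (ℕ → X)).indicator fun _ => 1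
  | n + 1 => D.ext L k (pot D L k n)

theorem pot_good (hL : 1 ≤ L) : ∀ n, D.Good (D.pot L k n)
  | 0 => ⟨fun x => by by_cases hx : x ∈ D.Y <;> simp [pot, hx], fun η η' h => by
      by_cases hx : η ∈ D.Y
      · simp [pot, hx, D.memY h hx]
      · have : η' ∉ D.Y := fun h' => hx (D.memY (D.symm h) h')
        simp [pot, hx, this]⟩
  | n + 1 => ext_good hL (pot_good hL n)

theorem pot_one (hL : 1 ≤ L) (hk : L * D.n0 ≤ k) :
    ∀ n ξ, sh (k * n) ξ ∈ D.Y → D.pot L k n ξ = 1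
  | 0, ξ, h => by simpa [pot, sh_zero] using h
  | n + 1, ξ, h => le_antisymm ((pot_good hL (n + 1)).1 ξ).2 (by
      rw [← pot_one hL hk n (sh k ξ) (by rwa [sh_sh, ← Nat.mul_succ])]
      exact (ext_approx hL hk (pot_good hL n).1 ξ).1)

theorem pot_supp (hL : 1 ≤ L) (hk : L * D.n0 ≤ k) :
    ∀ n ξ, D.pot L k n ξ ≠ 0 → D.Z (k * n) ξ
  | 0, ξ, h => Or.inl (by by_contra hx; exact h (by simpa [pot, sh_zero] using hx))
  | n + 1, ξ, h => ext_supp hk (pot_good hL n).1 (pot_supp hL hk n) ξ h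

theorem pot_approx (hL : 2 ≤ L) (hk : L * D.n0 ≤ k) (m : ℕ) : ∀ n ξ,
    D.om (D.pot L k (m + n)) ξ ≤ D.om (D.pot L k m) (sh (k * n) ξ) * (1 / 2) ^ n ∧
      |D.pot L k (m + n) ξ - D.pot L k m (sh (k * n) ξ)| ≤
        D.om (D.pot L k m) (sh (k * n) ξ) * (2 - 2 * (1 / 2) ^ n)
  | 0, ξ => by simp [sh_zero]
  | n + 1, ξ => by
    have hL1 : 1 ≤ L := by omega
    have hg := pot_good (D := D) (k := k) hL1 (m + n)
    obtain ⟨h1, h2⟩ := pot_approx hL hk m n (sh k ξ)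
    rw [sh_sh, ← Nat.mul_succ] at h1 h2
    have h3 := (om_ext hL1 hk hg ξ).1
    have h4 := ext_approx hL1 hk hg.1 ξ
    have h5 := om_nonneg (D := D) hg.1 (sh k ξ)
    have h6 : D.om (D.pot L k (m + n)) (sh k ξ) / L ≤ D.om (D.pot L k (m + n)) (sh k ξ) / 2 :=
      div_le_div_of_nonneg_left h5 two_pos (by exact_mod_cast hL)
    have h7 := abs_le.mp h2
    change D.om (D.ext L k (D.pot L k (m + n))) ξ ≤ _ ∧ |D.ext L k (D.pot L k (m + n)) ξ - _| ≤ _
    rw [pow_succ, abs_le]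
    refine ⟨by linarith, by linarith, by linarith⟩

theorem en_zero [Finite X] : ∃ c : ℝ, D.En (D.pot L k 0) c := by
  classical
  have hF := finite_sh D.Y.finite_toSet D.n0
  have hg := pot_good (D := D) (L := 1) (k := k) le_rfl 0
  refine ⟨hF.toFinset.card, fun T => ?_⟩
  have key : ∀ η, D.om (D.pot L k 0) η ^ 2 ≤ if η ∈ hF.toFinset then 1 else 0 := fun η => by
    have h0 : 0 ≤ D.om (D.pot L k 0) η := om_nonneg hg.1 η
    split_ifs with hη
    · have : D.om (D.pot L k 0) η ≤ 1 := om_le fun η' _ => by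
        have a1 : 0 ≤ D.pot L k 0 η ∧ D.pot L k 0 η ≤ 1 := hg.1 η
        have a2 : 0 ≤ D.pot L k 0 η' ∧ D.pot L k 0 η' ≤ 1 := hg.1 η'
        rw [abs_le]
        constructor <;> linarith [a1.1, a1.2, a2.1, a2.2]
      nlinarith
    · have hη' : sh D.n0 η ∉ D.Y := by simpa using hη
      have h1 : η ∉ D.Y := fun h => hη' (D.shY _ h)
      have : D.om (D.pot L k 0) η ≤ 0 := om_le fun η' hN => by
        have h2 : η' ∉ D.Y := fun h => by
          rcases hN with hN | hN | ⟨p, -, hN⟩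
          · exact h1 (D.memY (D.symm hN) h)
          · exact h1 hN.1
          · by_cases hp : D.n0 ≤ p
            · exact hN.2.1.not_ag hp h fun _ _ => rfl
            · exact hη' (D.shY_le (D.memY (D.symm hN.2.2) (D.shY _ h)) (by omega))
        simp [pot, h1, h2]
      nlinarith
  refine (sum_le_sum fun η _ => key η).trans ?_
  rw [sum_boole]
  exact_mod_cast card_le_card fun η hη => (mem_filter.mp hη).2

theorem en_pot [Fintype X] (hL : 1 ≤ L) (hk : L * D.n0 ≤ k)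
    (hb : 2 * (k * (D.Y.card * (Fintype.card X * D.Y.card))) ≤ L ^ 2) {c : ℝ}
    (h : D.En (D.pot L k 0) c) : ∀ n, D.En (D.pot L k n) (c * (1 / 2) ^ n)
  | 0 => by simpa using h
  | n + 1 => by
    have := (en_pot hL hk hb h n).ext hL hk hb (pot_good hL n)
    rwa [show c * (1 / 2) ^ n / 2 = c * (1 / 2) ^ (n + 1) by ring] at this

/-- Bijections of the rays whose non-neighbour edges grow at most linearly. -/
structure Dyn (D : Sys X) (σ : Equiv.Perm (ℕ → X)) (C c : ℕ) : Prop where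
  ag : ∀ ξ η p, Ag ξ η p → Ag (σ ξ) (σ η) p
  cov : ∀ a, Cov (fun ξ => ¬ D.Nb 0 (sh a ξ) (sh a (σ ξ))) a (C * (a + 1))
  fw : ∀ n ξ, sh n ξ ∈ D.Y → sh (n + c) (σ ξ) ∈ D.Y
  bw : ∀ n ξ, sh n (σ ξ) ∈ D.Y → sh (n + c) ξ ∈ D.Y

variable {σ : Equiv.Perm (ℕ → X)} {C c : ℕ}

theorem Dyn.sum_le (hσ : D.Dyn σ C c) {P : (ℕ → X) → Prop} {a N : ℕ} (h : Cov P a N)
    {ψ : (ℕ → X) → ℝ} {e : ℝ} (h0 : ∀ η, 0 ≤ ψ η)
    (hc : ∀ T : Finset (ℕ → X), ∑ η ∈ T, ψ η ≤ e) (T : Finset (ℕ → X)) (hT : ∀ ξ ∈ T, P ξ) :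
    ∑ ξ ∈ T, ψ (sh a (σ ξ)) ≤ N * e := by
  classical
  have h1 : Cov (fun ξ => P (σ.symm ξ)) a N := by
    obtain ⟨B, h1, h2⟩ := h
    refine ⟨B.image σ, card_image_le.trans h1, fun ξ hξ => ?_⟩
    obtain ⟨β, hβ, h3⟩ := h2 _ hξ
    exact ⟨σ β, mem_image_of_mem _ hβ, by simpa using hσ.ag _ _ _ h3⟩
  have := h1.sum_le h0 hc (T.image σ) (by simpa using hT)
  rwa [sum_image σ.injective.injOn] at this

theorem Dyn.grad (hσ : D.Dyn σ C c) (hL : 1 ≤ L) (hk : L * D.n0 ≤ k) {i : ℕ} {ξ : ℕ → X}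
    (h : D.pot L k i (σ ξ) - D.pot L k i ξ ≠ 0) : sh (k * i + D.n0 + c) ξ ∈ D.Y := by
  by_contra hc
  have h1 : D.pot L k i ξ = 0 := by
    by_contra h1
    exact hc (D.shY_le (pot_supp hL hk i ξ h1).mem (by omega))
  have h2 : D.pot L k i (σ ξ) = 0 := by
    by_contra h2
    exact hc (hσ.bw _ _ (pot_supp hL hk i _ h2).mem)
  exact h (by rw [h1, h2, sub_self])

theorem Dyn.energy [Fintype X] [Nonempty X] (hσ : D.Dyn σ C c) (hL : 2 ≤ L) (hk : L * D.n0 ≤ k)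
    (hk2 : D.n0 + c ≤ k) {e : ℝ} (he : ∀ n, D.En (D.pot L k n) (e * (1 / 2) ^ n)) (i : ℕ)
    (T : Finset (ℕ → X)) : ∑ ξ ∈ T, (D.pot L k i (σ ξ) - D.pot L k i ξ) ^ 2 ≤
      ((C * (k + 1) + 1) * Fintype.card X ^ k : ℕ) * (52 * e + D.Y.card) * (i + 1) := by
  classical
  have hL1 : 1 ≤ L := by omega
  have he0 : 0 ≤ e := by simpa using he 0 ∅
  let P : ℕ → (ℕ → X) → Prop := fun n ξ => ¬ D.Nb 0 (sh (k * n) ξ) (sh (k * n) (σ ξ))
  let Cv : ℕ → (ℕ → X) → Prop := fun n ξ => ∀ m, n = m + 1 → P m ξ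
  set N := (C * (k + 1) + 1) * Fintype.card X ^ k * (i + 1) with hN
  have hX : 1 ≤ Fintype.card X ^ k := Nat.one_le_pow _ _ Fintype.card_pos
  have hcov : ∀ n ≤ i + 1, Cov (Cv n) (k * n) N := fun n hn => by
    rcases n with _ | m
    · exact (cov_zero _).mono (fun _ h => h) (Nat.succ_le_of_lt (by rw [hN]; positivity))
    · refine ((hσ.cov (k * m)).add k).mono (fun ξ h => h m rfl) ?_
      have : k * m + 1 ≤ (k + 1) * (i + 1) := by nlinarith
      rw [hN, mul_right_comm (C * (k + 1) + 1)]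
      exact Nat.mul_le_mul_right _ (by nlinarith)
  let ω : ℕ → (ℕ → X) → ℝ := fun n η => D.om (D.pot L k (i - n)) η ^ 2
  let ψ : (ℕ → X) → ℝ := fun η => if η ∈ D.Y then 1 else 0
  have hψ : ∀ η, 0 ≤ ψ η := fun η => by simp only [ψ]; split_ifs <;> norm_num
  have hω : ∀ n η, 0 ≤ ω n η := fun n η => sq_nonneg _
  have key : ∀ ξ, (D.pot L k i (σ ξ) - D.pot L k i ξ) ^ 2 ≤
      (∑ n ∈ range (i + 1), if Cv n ξ then 18 * ω n (sh (k * n) ξ) + 8 * ω n (sh (k * n) (σ ξ))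
        else 0) + if Cv (i + 1) ξ then ψ (sh (k * (i + 1)) ξ) else 0 := fun ξ => by
    have hn : ∀ n ∈ range (i + 1), 0 ≤ if Cv n ξ then
        18 * ω n (sh (k * n) ξ) + 8 * ω n (sh (k * n) (σ ξ)) else 0 := fun n _ => by
      have := hω n (sh (k * n) ξ)
      have := hω n (sh (k * n) (σ ξ))
      split_ifs <;> linarith
    have hcase : ∀ j, (∃ n < j, Cv n ξ ∧ ¬ P n ξ) ∨ Cv j ξ := fun j => by
      induction j with
      | zero => exact Or.inr fun m h => absurd h (by omega)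
      | succ j ih =>
        rcases ih with ⟨n, h1, h2⟩ | ih
        · exact Or.inl ⟨n, by omega, h2⟩
        · by_cases h : P j ξ
          · exact Or.inr fun m hm => by rwa [show m = j by omega]
          · exact Or.inl ⟨j, by omega, ih, h⟩
    rcases hcase (i + 1) with ⟨n, h1, h2, h3⟩ | h1
    · have h4 := single_le_sum hn (mem_range.mpr h1)
      rw [if_pos h2] at h4
      have hg := pot_good (D := D) (k := k) hL1 (i - n)
      have a1 := abs_le.mp (pot_approx hL hk (i - n) n ξ).2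
      have a2 := abs_le.mp (pot_approx hL hk (i - n) n (σ ξ)).2
      have a3 := abs_le.mp (le_om hg.1 (not_not.mp h3))
      have a4 := om_nonneg (D := D) hg.1 (sh (k * n) ξ)
      have a5 := om_nonneg (D := D) hg.1 (sh (k * n) (σ ξ))
      rw [Nat.sub_add_cancel (by omega)] at a1 a2
      have a6 : (0 : ℝ) ≤ (1 / 2) ^ n := by positivity
      have a7 := mul_nonneg a4 a6
      have a8 := mul_nonneg a5 a6
      have a9 : 0 ≤ if Cv (i + 1) ξ then ψ (sh (k * (i + 1)) ξ) else 0 := by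
        split_ifs
        exacts [hψ _, le_rfl]
      have a10 := sq_le_sq' (a := D.pot L k i (σ ξ) - D.pot L k i ξ)
        (b := 3 * D.om (D.pot L k (i - n)) (sh (k * n) ξ) +
          2 * D.om (D.pot L k (i - n)) (sh (k * n) (σ ξ))) (by linarith) (by linarith)
      simp only [ω] at h4 ⊢
      nlinarith [sq_nonneg (3 * D.om (D.pot L k (i - n)) (sh (k * n) ξ) -
          2 * D.om (D.pot L k (i - n)) (sh (k * n) (σ ξ)))]
    · rw [if_pos h1]
      have h2 := sum_nonneg hn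
      by_cases h3 : D.pot L k i (σ ξ) - D.pot L k i ξ = 0
      · rw [h3]
        linarith [hψ (sh (k * (i + 1)) ξ)]
      · have h4 := D.shY_le (b := k * (i + 1)) (hσ.grad hL1 hk h3) (by rw [Nat.mul_succ]; omega)
        have a1 := (pot_good (D := D) (k := k) hL1 i).1 ξ
        have a2 := (pot_good (D := D) (k := k) hL1 i).1 (σ ξ)
        simp only [ψ, if_pos h4]
        nlinarith [a1.1, a1.2, a2.1, a2.2]
  refine (sum_le_sum fun ξ _ => key ξ).trans ?_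
  rw [sum_add_distrib, sum_comm, ← sum_filter]
  have b1 : ∑ ξ ∈ T.filter (Cv (i + 1)), ψ (sh (k * (i + 1)) ξ) ≤ N * (D.Y.card : ℝ) :=
    (hcov _ le_rfl).sum_le hψ (fun T' => by
      rw [sum_boole]
      exact_mod_cast card_le_card fun η hη => (mem_filter.mp hη).2) _
      fun ξ hξ => (mem_filter.mp hξ).2
  have b2 : ∀ n ∈ range (i + 1), (∑ ξ ∈ T, if Cv n ξ then
      18 * ω n (sh (k * n) ξ) + 8 * ω n (sh (k * n) (σ ξ)) else 0) ≤
        26 * N * e * (1 / 2) ^ (i - n) := fun n hn => by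
    have hc := hcov n (by have := mem_range.mp hn; omega)
    have c1 := hc.sum_le (hω n) (he (i - n)) (T.filter (Cv n)) fun ξ hξ => (mem_filter.mp hξ).2
    have c2 := hσ.sum_le hc (hω n) (he (i - n)) (T.filter (Cv n)) fun ξ hξ => (mem_filter.mp hξ).2
    rw [← sum_filter, sum_add_distrib, ← mul_sum, ← mul_sum]
    linarith
  have b3 := sum_le_sum b2
  rw [← mul_sum] at b3
  have b4 := mul_le_mul_of_nonneg_left (sum_half_le i) (show (0 : ℝ) ≤ 26 * N * e by positivity)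
  have b5 : (N : ℝ) = ((C * (k + 1) + 1) * Fintype.card X ^ k : ℕ) * (i + 1) := by
    rw [hN]
    push_cast
    ring
  calc _ ≤ N * (52 * e + D.Y.card) := by linarith
    _ = _ := by rw [b5]; ring

theorem exists_pot [Fintype X] [Nonempty X] (D : Sys X) (C c : ℕ) {ε : ℝ} (hε : 0 < ε) :
    ∃ (F : (ℕ → X) → ℝ) (W : Finset (ℕ → X)), U F ∧ (∀ x, x ∉ W → F x = 0) ∧
      (∀ y ∈ D.Y, F y = 1) ∧ ∀ σ, D.Dyn σ C c →
        ∀ T : Finset (ℕ → X), ∑ x ∈ T, (F (σ x) - F x) ^ 2 ≤ ε := by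
  set A := D.Y.card * (Fintype.card X * D.Y.card) with hA
  set L := 2 * A * (2 * D.n0 + 2 * c) + 2 with hLdef
  set k := (L + 1) * D.n0 + 2 * c with hkdef
  have hL : 2 ≤ L := by omega
  have hL1 : 1 ≤ L := by omega
  have hk : L * D.n0 ≤ k := by rw [hkdef, add_mul L, one_mul]; omega
  have hk2 : D.n0 + 2 * c ≤ k := by rw [hkdef, add_mul, one_mul]; omega
  have hb : 2 * (k * A) ≤ L ^ 2 := by
    have h1 : k ≤ L * (2 * D.n0 + 2 * c) := by rw [hkdef]; nlinarith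
    have h2 : 2 * (k * A) ≤ L * (2 * A * (2 * D.n0 + 2 * c)) := by nlinarith
    nlinarith
  obtain ⟨e, he⟩ := en_zero (D := D) (L := L) (k := k)
  have he0 : 0 ≤ e := by simpa using he ∅
  have hen := en_pot hL1 hk hb he
  set K : ℝ := ((C * (k + 1) + 1) * Fintype.card X ^ k : ℕ) * (52 * e + D.Y.card) with hK
  obtain ⟨n, hn⟩ := (Real.tendsto_sum_range_one_div_nat_succ_atTop.eventually_ge_atTop
    (K / ε + 1)).exists
  set h : ℝ := ∑ i ∈ range n, 1 / ((i : ℝ) + 1) with hh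
  have hK0 : 0 ≤ K := by positivity
  have hpos : 0 < h := lt_of_lt_of_le (by positivity) hn
  have hU := fun i => (pot_good (D := D) (k := k) hL1 i).1
  have hF := finite_sh D.Y.finite_toSet (k * n + D.n0)
  refine ⟨fun ξ => (∑ i ∈ range n, D.pot L k i ξ / ((i : ℝ) + 1)) / h, hF.toFinset,
    fun ξ => ⟨div_nonneg (sum_nonneg fun i _ => div_nonneg (hU i ξ).1 (by positivity)) hpos.le,
      (div_le_one hpos).mpr (sum_le_sum fun i _ =>
        div_le_div_of_nonneg_right (hU i ξ).2 (by positivity))⟩, fun ξ hξ => ?_, fun y hy => ?_,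
    fun σ hσ T => ?_⟩
  · have h1 : sh (k * n + D.n0) ξ ∉ D.Y := by simpa using hξ
    beta_reduce
    rw [sum_eq_zero fun i hi => ?_, zero_div]
    have : D.pot L k i ξ = 0 := by
      by_contra h2
      exact h1 (D.shY_le (pot_supp hL1 hk i ξ h2).mem
        (Nat.add_le_add_right (Nat.mul_le_mul_left k (mem_range.mp hi).le) _))
    rw [this, zero_div]
  · rw [div_eq_one_iff_eq hpos.ne']
    exact sum_congr rfl fun i _ => by rw [pot_one hL1 hk i y (D.shY _ hy)]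
  · have key : ∀ ξ, ((∑ i ∈ range n, D.pot L k i (σ ξ) / ((i : ℝ) + 1)) / h -
        (∑ i ∈ range n, D.pot L k i ξ / ((i : ℝ) + 1)) / h) ^ 2 =
        (∑ i ∈ range n, (D.pot L k i (σ ξ) - D.pot L k i ξ) ^ 2 / ((i : ℝ) + 1) ^ 2) / h ^ 2 := by
      intro ξ
      rw [← sub_div, ← sum_sub_distrib, div_pow]
      simp only [← sub_div, ← div_pow]
      rw [div_pow]
      refine congrArg (fun t => t / h ^ 2) (sq_sum_disj _ (fun i j hij hi => ?_) n)
      have h1 := hσ.grad hL1 hk (div_ne_zero_iff.mp hi).1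
      have h2 : k * i + k ≤ k * j := Nat.mul_le_mul_left k hij
      rw [pot_one hL1 hk j ξ (D.shY_le h1 (by omega)),
        pot_one hL1 hk j (σ ξ) (D.shY_le (hσ.fw _ _ h1) (by omega)), sub_self, zero_div]
    simp only [key]
    rw [← sum_div, sum_comm, div_le_iff₀ (by positivity)]
    have h1 : ∑ i ∈ range n, ∑ ξ ∈ T, (D.pot L k i (σ ξ) - D.pot L k i ξ) ^ 2 / ((i : ℝ) + 1) ^ 2
        ≤ K * h := by
      rw [hh, mul_sum]
      refine sum_le_sum fun i _ => ?_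
      rw [← sum_div, div_le_iff₀ (by positivity)]
      refine (hσ.energy hL hk (by omega) hen i T).trans (le_of_eq ?_)
      rw [← hK]
      field_simp
    have h2 : K ≤ ε * h := by
      have := (div_le_iff₀' hε).mp (show K / ε ≤ h by linarith)
      linarith
    nlinarith

theorem exists_rand [Fintype X] [Nonempty X] [DecidableEq (ℕ → X)] (D : Sys X) (C c : ℕ) {ε : ℝ}
    (hε : 0 < ε) : ∃ M : Mean (Finset (ℕ → X)), Supp M {A | D.Y ⊆ A} ∧ ∀ σ, D.Dyn σ C c →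
      ∀ φ, U φ → |M.m (fun A => φ (A.image σ)) - M.m φ| ≤ ε := by
  obtain ⟨F, W, h1, h2, h3, h4⟩ := exists_pot D C c (ε := ε ^ 2 / 16) (by positivity)
  obtain ⟨M, h5, h6⟩ := exists_cut W h1 h2
  refine ⟨M, h5.mono fun A hA y hy => hA y (h3 y hy), fun σ hσ φ hφ => ?_⟩
  exact abs_le_of_sq_le_sq' (by linarith [h6 σ _ (h4 σ hσ) φ hφ]) hε.le |> abs_le.mpr

end Sys

end Pool.Agent.MP_622d34_al
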