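import Pool.Agent.MP_622d34_al.Pot

/-! Abstract self-similar groups, relative activity and the hierarchy of bounded classes. -/

namespace Pool.Agent.MP_622d34_al

open Finset

variable {Γ X : Type*}

/-- A letter followed by a ray. -/
def cs (x : X) (β : ℕ → X) : ℕ → X
  | 0 => x
  | i + 1 => β i

/-- The first `p` letters of `η` followed by `ζ`. -/
def cat (η : ℕ → X) (p : ℕ) (ζ : ℕ → X) : ℕ → X := fun i => if i < p then η i else ζ (i - p)

theorem ag_cat (η : ℕ → X) (p : ℕ) (ζ : ℕ → X) : Ag η (cat η p ζ) p := fun i hi => by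
  simp [cat, hi]

theorem sh_cat (η : ℕ → X) (p : ℕ) (ζ : ℕ → X) : sh p (cat η p ζ) = ζ := by
  funext i
  simp [cat, sh]

theorem exists_sep (T : Finset (ℕ → X)) : ∃ n, ∀ ξ ∈ T, ∀ η ∈ T, Ag ξ η n → ξ = η := by
  have : ∀ q : (ℕ → X) × (ℕ → X), ∃ n, Ag q.1 q.2 n → q.1 = q.2 := fun q => by
    by_cases h : q.1 = q.2
    · exact ⟨0, fun _ => h⟩
    · obtain ⟨i, hi⟩ := Function.ne_iff.mp h
      exact ⟨i + 1, fun H => absurd (H i (by omega)) hi⟩
  choose n hn using this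
  exact ⟨(T ×ˢ T).sup n, fun ξ hξ η hη h =>
    hn (ξ, η) (h.mono (le_sup (f := n) (mem_product.mpr ⟨hξ, hη⟩)))⟩

section Lev

variable (X) [Fintype X] [Nonempty X]

/-- One ray through every vertex of level `n`. -/
noncomputable def lev : ℕ → Finset (ℕ → X)
  | 0 => {fun _ => Classical.arbitrary X}
  | n + 1 => ((univ : Finset X) ×ˢ lev n).map ⟨fun q => cs q.1 q.2, fun (a b : X × (ℕ → X)) e =>
      have e' : cs a.1 a.2 = cs b.1 b.2 := e
      Prod.ext (congrFun e' 0) (funext fun i => congrFun e' (i + 1))⟩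

variable {X}

theorem exists_lev : ∀ (n : ℕ) (ξ : ℕ → X), ∃ β ∈ lev X n, Ag ξ β n
  | 0, _ => ⟨_, mem_singleton_self _, fun i hi => absurd hi (Nat.not_lt_zero i)⟩
  | n + 1, ξ => by
    obtain ⟨β, h1, h2⟩ := exists_lev n (sh 1 ξ)
    refine ⟨cs (ξ 0) β, mem_map.mpr ⟨(ξ 0, β), mem_product.mpr ⟨mem_univ _, h1⟩, rfl⟩, ?_⟩
    rintro (_ | i) hi
    · rfl
    · exact h2 i (by omega)

theorem lev_inj : ∀ (n : ℕ), ∀ β ∈ lev X n, ∀ γ ∈ lev X n, Ag β γ n → β = γ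
  | 0, β, h1, γ, h2, _ => (mem_singleton.mp h1).trans (mem_singleton.mp h2).symm
  | n + 1, β, h1, γ, h2, h => by
    obtain ⟨⟨x, β'⟩, h1', rfl⟩ := mem_map.mp h1
    obtain ⟨⟨y, γ'⟩, h2', rfl⟩ := mem_map.mp h2
    obtain rfl : x = y := h 0 (by omega)
    have h3 := (mem_product.mp h1').2
    have h4 := (mem_product.mp h2').2
    obtain rfl := lev_inj n β' h3 γ' h4 fun i hi => h (i + 1) (by omega)
    rfl

end Lev

variable [Group Γ] [MulAction Γ X]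

/-- A faithful self-similar structure, given by the sections at letters. -/
structure SS (Γ X : Type*) [Group Γ] [MulAction Γ X] where
  sc : Γ → X → Γ
  mul : ∀ g h x, sc (g * h) x = sc g (h • x) * sc h x
  faith : ∀ P : Γ → Prop, (∀ g, P g → ∀ x : X, g • x = x ∧ P (sc g x)) → ∀ g, P g → g = 1

namespace SS

variable (S : SS Γ X)

theorem sc_one (x : X) : S.sc 1 x = 1 := by
  have := S.mul 1 1 x
  rw [one_mul, one_smul] at this
  exact left_eq_mul.mp this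

theorem sc_inv (g : Γ) (x : X) : S.sc g⁻¹ (g • x) = (S.sc g x)⁻¹ := by
  have := S.mul g⁻¹ g x
  rw [inv_mul_cancel, sc_one] at this
  exact eq_inv_of_mul_eq_one_left this.symm

/-- Section at the vertex of level `n` on the ray `ξ`. -/
def sr (g : Γ) (ξ : ℕ → X) : ℕ → Γ
  | 0 => g
  | n + 1 => S.sc (sr g ξ n) (ξ n)

/-- Action on rays. -/
def ac (g : Γ) (ξ : ℕ → X) : ℕ → X := fun n => S.sr g ξ n • ξ n

theorem sr_one (ξ : ℕ → X) : ∀ n, S.sr 1 ξ n = 1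
  | 0 => rfl
  | n + 1 => by rw [sr, sr_one ξ n, sc_one]

theorem sr_mul (g h : Γ) (ξ : ℕ → X) : ∀ n, S.sr (g * h) ξ n = S.sr g (S.ac h ξ) n * S.sr h ξ n
  | 0 => rfl
  | n + 1 => by rw [sr, sr_mul g h ξ n, S.mul]; rfl

theorem ac_one (ξ : ℕ → X) : S.ac 1 ξ = ξ := funext fun n => by rw [ac, sr_one, one_smul]

theorem ac_mul (g h : Γ) (ξ : ℕ → X) : S.ac (g * h) ξ = S.ac g (S.ac h ξ) :=
  funext fun n => by rw [ac, sr_mul, mul_smul]; rfl

theorem ac_inv (g : Γ) (ξ : ℕ → X) : S.ac g⁻¹ (S.ac g ξ) = ξ := by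
  rw [← ac_mul, inv_mul_cancel, ac_one]

theorem inv_ac (g : Γ) (ξ : ℕ → X) : S.ac g (S.ac g⁻¹ ξ) = ξ := by
  rw [← ac_mul, mul_inv_cancel, ac_one]

/-- The action on rays as a homomorphism. -/
def act : Γ →* Equiv.Perm (ℕ → X) :=
  MonoidHom.mk' (fun g => ⟨S.ac g, S.ac g⁻¹, S.ac_inv g, S.inv_ac g⟩) fun g h =>
    Equiv.ext fun ξ => S.ac_mul g h ξ

theorem sr_inv (g : Γ) (ξ : ℕ → X) (n : ℕ) : S.sr g⁻¹ (S.ac g ξ) n = (S.sr g ξ n)⁻¹ := by
  have := S.sr_mul g⁻¹ g ξ n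
  rw [inv_mul_cancel, sr_one] at this
  exact eq_inv_of_mul_eq_one_left this.symm

theorem sr_add (g : Γ) (ξ : ℕ → X) (n : ℕ) :
    ∀ i, S.sr g ξ (i + n) = S.sr (S.sr g ξ n) (sh n ξ) i
  | 0 => by rw [Nat.zero_add]; rfl
  | i + 1 => by rw [Nat.succ_add, sr, sr_add g ξ n i]; rfl

theorem sh_ac (g : Γ) (ξ : ℕ → X) (n : ℕ) : sh n (S.ac g ξ) = S.ac (S.sr g ξ n) (sh n ξ) :=
  funext fun i => by simp only [sh, ac, sr_add]

theorem sr_ag (g : Γ) {ξ η : ℕ → X} : ∀ {n}, Ag ξ η n → S.sr g ξ n = S.sr g η n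
  | 0, _ => rfl
  | n + 1, h => by rw [sr, sr, sr_ag g (h.mono n.le_succ), h n (by omega)]

theorem ac_ag (g : Γ) {ξ η : ℕ → X} {p : ℕ} (h : Ag ξ η p) : Ag (S.ac g ξ) (S.ac g η) p :=
  fun i hi => by rw [ac, ac, S.sr_ag g (h.mono hi.le), h i hi]

theorem ac_ag_iff (g : Γ) {ξ η : ℕ → X} {p : ℕ} : Ag ξ η p ↔ Ag (S.ac g ξ) (S.ac g η) p :=
  ⟨S.ac_ag g, fun h => by simpa only [ac_inv] using S.ac_ag g⁻¹ h⟩

theorem sr_cs (g : Γ) (x : X) (β : ℕ → X) (n : ℕ) :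
    S.sr g (cs x β) (n + 1) = S.sr (S.sc g x) β n := S.sr_add g _ 1 n

theorem sr_cat (g : Γ) (η : ℕ → X) (p : ℕ) (ζ : ℕ → X) (n : ℕ) :
    S.sr g (cat η p ζ) (n + p) = S.sr (S.sr g η p) ζ n := by
  rw [sr_add, sh_cat, ← S.sr_ag g (ag_cat η p ζ)]

/-- All sections of `g`. -/
def reach (g : Γ) : Set Γ := {t | ∃ ξ n, S.sr g ξ n = t}

theorem reach_sub {g t : Γ} (h : t ∈ S.reach g) : S.reach t ⊆ S.reach g := by
  obtain ⟨η, p, rfl⟩ := h
  rintro _ ⟨ζ, n, rfl⟩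
  exact ⟨_, _, S.sr_cat g η p ζ n⟩

theorem self_reach [Nonempty X] (g : Γ) : g ∈ S.reach g := ⟨fun _ => Classical.arbitrary X, 0, rfl⟩

theorem sc_reach (g : Γ) (x : X) : S.sc g x ∈ S.reach g := ⟨fun _ => x, 1, rfl⟩

/-- Closed under sections. -/
def Sim (B : Set Γ) : Prop := ∀ g ∈ B, ∀ x, S.sc g x ∈ B

/-- Contains every element whose first level sections it contains. -/
def Cl (B : Set Γ) : Prop := ∀ g, (∀ x, S.sc g x ∈ B) → g ∈ B

variable {S}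

theorem Sim.le {B : Set Γ} (hB : S.Sim B) {g : Γ} {ξ : ℕ → X} {m n : ℕ} (h : S.sr g ξ m ∈ B)
    (hmn : m ≤ n) : S.sr g ξ n ∈ B := by
  induction hmn with
  | refl => exact h
  | step _ ih => exact hB _ ih _

theorem Cl.ray {B : Set Γ} (hB : S.Cl B) {g : Γ} (hg : g ∉ B) : ∃ ξ, ∀ n, S.sr g ξ n ∉ B := by
  have : ∀ t : {t // t ∉ B}, ∃ x, S.sc t x ∉ B := fun t => not_forall.mp fun h => t.2 (hB _ h)
  choose nx hnx using this
  let t : ℕ → {t // t ∉ B} := fun n => Nat.rec ⟨g, hg⟩ (fun _ s => ⟨S.sc s (nx s), hnx s⟩) n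
  refine ⟨fun n => nx (t n), fun n => ?_⟩
  have : ∀ n, S.sr g (fun n => nx (t n)) n = (t n).1 := fun n => by
    induction n with
    | zero => rfl
    | succ n ih => rw [sr, ih]
  rw [this]
  exact (t n).2

theorem Cl.ray' {B : Set Γ} (hB : S.Cl B) (hS : S.Sim B) {g : Γ} {η : ℕ → X} {p : ℕ}
    (hg : S.sr g η p ∉ B) : ∃ z, Ag η z p ∧ ∀ n, S.sr g z n ∉ B := by
  obtain ⟨ζ, hζ⟩ := hB.ray hg
  refine ⟨cat η p ζ, ag_cat η p ζ, fun n hn => hζ n ?_⟩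
  rw [← sr_cat]
  exact hS.le hn (by omega)

variable [Fintype X] [Nonempty X]

/-- Sum of `f` over the sections at level `n`. -/
noncomputable def tot (S : SS Γ X) (f : Γ → ℕ) (n : ℕ) (g : Γ) : ℕ :=
  ∑ β ∈ lev X n, f (S.sr g β n)

theorem tot_zero (f : Γ → ℕ) (g : Γ) : S.tot f 0 g = f g := sum_singleton _ _

theorem tot_succ (f : Γ → ℕ) (n : ℕ) (g : Γ) :
    S.tot f (n + 1) g = ∑ x, S.tot f n (S.sc g x) := by
  simp only [tot, lev, sum_map, sum_product, Function.Embedding.coeFn_mk, sr_cs]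

theorem tot_add (f : Γ → ℕ) (m : ℕ) : ∀ n g, S.tot f (m + n) g = S.tot (S.tot f m) n g
  | 0, g => by rw [tot_zero, Nat.add_zero]
  | n + 1, g => by
    rw [← Nat.add_assoc, tot_succ, tot_succ]
    exact sum_congr rfl fun x _ => tot_add f m n _

theorem le_tot (f : Γ → ℕ) (n : ℕ) (g : Γ) (ξ : ℕ → X) : f (S.sr g ξ n) ≤ S.tot f n g := by
  obtain ⟨β, h1, h2⟩ := exists_lev n ξ
  rw [S.sr_ag g h2]
  exact single_le_sum (f := fun β => f (S.sr g β n)) (fun _ _ => Nat.zero_le _) h1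

theorem two_le_tot (f : Γ → ℕ) (n : ℕ) (g : Γ) {ξ η : ℕ → X} (h : ¬ Ag ξ η n) :
    f (S.sr g ξ n) + f (S.sr g η n) ≤ S.tot f n g := by
  obtain ⟨β, h1, h2⟩ := exists_lev n ξ
  obtain ⟨γ, h3, h4⟩ := exists_lev n η
  rw [S.sr_ag g h2, S.sr_ag g h4]
  exact add_le_sum (f := fun β => f (S.sr g β n)) (fun _ _ => Nat.zero_le _) h1 h3
    fun e => h (h2.trans (e ▸ h4.symm))

theorem tot_le_single (f : Γ → ℕ) (n : ℕ) (g : Γ) (ξ : ℕ → X)
    (h : ∀ η, ¬ Ag ξ η n → f (S.sr g η n) = 0) : S.tot f n g ≤ f (S.sr g ξ n) := by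
  obtain ⟨β, h1, h2⟩ := exists_lev n ξ
  rw [S.sr_ag g h2]
  exact (sum_eq_single_of_mem β h1 fun γ h3 h4 => h γ fun e =>
    h4 (lev_inj n γ h3 β h1 (e.symm.trans h2))).le

open Classical in
/-- Number of vertices of level `n` at which the section of `g` is not in `B`. -/
noncomputable def cnt (S : SS Γ X) (B : Set Γ) : ℕ → Γ → ℕ :=
  S.tot fun g => if g ∈ B then 0 else 1

theorem cnt_succ (B : Set Γ) (n : ℕ) (g : Γ) :
    S.cnt B (n + 1) g = ∑ x, S.cnt B n (S.sc g x) := tot_succ _ n g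

theorem cnt_add (B : Set Γ) (m n : ℕ) (g : Γ) : S.cnt B (m + n) g = S.tot (S.cnt B m) n g :=
  tot_add _ m n g

open Classical in
theorem cnt_card (B : Set Γ) (n : ℕ) (g : Γ) :
    S.cnt B n g = ((lev X n).filter fun β => S.sr g β n ∉ B).card := by
  rw [card_filter]
  exact sum_congr rfl fun β _ => by by_cases h : S.sr g β n ∈ B <;> simp [h]

theorem cnt_cov (B : Set Γ) (n : ℕ) (g : Γ) :
    Cov (fun ξ => S.sr g ξ n ∉ B) n (S.cnt B n g) := by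
  classical
  refine ⟨_, (cnt_card B n g).ge, fun ξ hξ => ?_⟩
  obtain ⟨β, h1, h2⟩ := exists_lev n ξ
  exact ⟨β, mem_filter.mpr ⟨h1, by rwa [← S.sr_ag g h2]⟩, h2⟩

theorem cnt_anti {B B' : Set Γ} (h : B ⊆ B') (n : ℕ) (g : Γ) : S.cnt B' n g ≤ S.cnt B n g :=
  sum_le_sum fun β _ => by
    by_cases h1 : S.sr g β n ∈ B
    · simp [h1, h h1]
    · simp only [h1, if_false]
      split_ifs <;> omega

theorem cnt_zero_le (B : Set Γ) (g : Γ) : S.cnt B 0 g ≤ 1 := by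
  rw [cnt, tot_zero]
  split_ifs <;> omega

theorem Sim.cnt {B : Set Γ} (hB : S.Sim B) {g : Γ} (hg : g ∈ B) (n : ℕ) : S.cnt B n g = 0 :=
  sum_eq_zero fun _ _ => if_pos (hB.le (m := 0) hg n.zero_le)

theorem Cl.cnt {B : Set Γ} (hB : S.Cl B) {g : Γ} (hg : g ∉ B) (n : ℕ) : 1 ≤ S.cnt B n g := by
  obtain ⟨ξ, hξ⟩ := hB.ray hg
  exact le_trans (by rw [if_neg (hξ n)]) (le_tot _ n g ξ)

theorem Cl.mono {B : Set Γ} (hB : S.Cl B) {m n : ℕ} (h : m ≤ n) (g : Γ) :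
    S.cnt B m g ≤ S.cnt B n g := by
  obtain ⟨a, rfl⟩ := Nat.exists_eq_add_of_le' h
  rw [cnt_add]
  refine sum_le_sum fun β _ => ?_
  beta_reduce
  split_ifs with h
  exacts [Nat.zero_le _, hB.cnt h a]

theorem cnt_mul (B : Subgroup Γ) : ∀ n (g h : Γ),
    S.cnt B n (g * h) ≤ S.cnt B n g + S.cnt B n h
  | 0, g, h => by
    simp only [cnt, tot_zero]
    by_cases h2 : g ∈ (B : Set Γ)
    · by_cases h3 : h ∈ (B : Set Γ)
      · rw [if_pos (show g * h ∈ (B : Set Γ) from B.mul_mem h2 h3)]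
        exact Nat.zero_le _
      · rw [if_neg h3]
        split_ifs <;> omega
    · rw [if_neg h2]
      split_ifs <;> omega
  | n + 1, g, h => by
    rw [cnt_succ, cnt_succ, cnt_succ, ← Equiv.sum_comp (MulAction.toPerm h)
      fun x => S.cnt B n (S.sc g x), ← sum_add_distrib]
    exact sum_le_sum fun x _ => by rw [S.mul]; exact cnt_mul B n _ _

theorem cnt_inv (B : Subgroup Γ) : ∀ n (g : Γ), S.cnt B n g⁻¹ = S.cnt B n g
  | 0, g => by
    simp only [cnt, tot_zero]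
    rw [show (g⁻¹ ∈ (B : Set Γ)) = (g ∈ (B : Set Γ)) from propext B.inv_mem_iff]
  | n + 1, g => by
    rw [cnt_succ, cnt_succ, ← Equiv.sum_comp (MulAction.toPerm g)]
    exact sum_congr rfl fun x _ => by rw [MulAction.toPerm_apply, sc_inv, cnt_inv B n]

/-- Elements of bounded activity relative to `B`. -/
def nxt (S : SS Γ X) (B : Subgroup Γ) (hB : S.Sim B) : Subgroup Γ where
  carrier := {g | ∃ C, ∀ n, S.cnt B n g ≤ C}
  one_mem' := ⟨0, fun n => (hB.cnt B.one_mem n).le⟩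
  mul_mem' := fun {a b} ⟨C, h⟩ ⟨C', h'⟩ =>
    ⟨C + C', fun n => (cnt_mul B n a b).trans (Nat.add_le_add (h n) (h' n))⟩
  inv_mem' := fun {a} ⟨C, h⟩ => ⟨C, fun n => (cnt_inv B n a).trans_le (h n)⟩

theorem nxt_sim (B : Subgroup Γ) (hB : S.Sim B) : S.Sim (S.nxt B hB) := fun g ⟨C, h⟩ x =>
  ⟨C, fun n => le_trans (by
    rw [cnt_succ]
    exact single_le_sum (f := fun x => S.cnt B n (S.sc g x)) (fun _ _ => Nat.zero_le _)
      (mem_univ x)) (h (n + 1))⟩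

theorem nxt_cl (B : Subgroup Γ) (hB : S.Sim B) : S.Cl (S.nxt B hB) := fun g h => by
  choose C hC using h
  refine ⟨1 + ∑ x, C x, fun n => ?_⟩
  rcases n with _ | n
  · exact (cnt_zero_le _ g).trans (Nat.le_add_right _ _)
  · rw [cnt_succ]
    exact (sum_le_sum fun x _ => hC x n).trans (Nat.le_add_left _ _)

theorem nxt_sing {B : Subgroup Γ} {hB : S.Sim B} {g : Γ} (hg : g ∈ S.nxt B hB) :
    {ξ | ∀ n, S.sr g ξ n ∉ B}.Finite := by
  obtain ⟨C, hC⟩ := hg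
  by_contra h
  obtain ⟨T, h1, h2⟩ := Set.Infinite.exists_subset_card_eq h (C + 1)
  obtain ⟨n, hn⟩ := exists_sep T
  have := ((cnt_cov (B : Set Γ) n g).card_le T (fun ξ hξ => h1 hξ n) hn).trans (hC n)
  omega

theorem exists_cycle {B : Subgroup Γ} {hB : S.Sim B} {g : Γ} (hf : (S.reach g).Finite)
    (hg : g ∉ S.nxt B hB) : ∃ t ∈ S.reach g, ∃ ξ η p, S.sr t ξ p = t ∧ ¬ Ag ξ η p ∧
      S.sr t η p ∉ B := by
  obtain ⟨t, ⟨h1, h2⟩, hmin⟩ := exists_minimalFor_of_wellFoundedLT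
    (fun t => t ∈ S.reach g ∧ t ∉ S.nxt B hB) (fun t => (S.reach t).ncard) ⟨g, S.self_reach g, hg⟩
  obtain ⟨x, hx⟩ := not_forall.mp fun h => h2 (nxt_cl B hB t h)
  have h3 := S.reach_sub (S.sc_reach t x)
  have h4 := hf.subset (S.reach_sub h1)
  have h5 := Set.eq_of_subset_of_ncard_le h3
    (hmin ⟨S.reach_sub h1 (S.sc_reach t x), hx⟩ (Set.ncard_le_ncard h3 h4)) h4
  obtain ⟨ζ, m, hm⟩ : t ∈ S.reach (S.sc t x) := h5 ▸ S.self_reach t
  refine ⟨t, h1, cs x ζ, ?_⟩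
  by_contra hc
  push Not at hc
  rw [← sr_cs] at hm
  refine h2 ⟨∑ r ∈ range (m + 1), S.cnt B r t, fun n => ?_⟩
  induction n using Nat.strong_induction_on with
  | _ n ih =>
    by_cases hn : n < m + 1
    · exact single_le_sum (f := fun r => S.cnt B r t) (fun _ _ => Nat.zero_le _) (mem_range.mpr hn)
    · obtain ⟨a, rfl⟩ := Nat.exists_eq_add_of_le' (not_lt.mp hn)
      rw [cnt_add]
      refine (tot_le_single _ _ t (cs x ζ) fun η hη => hB.cnt (hc η _ hm hη) a).trans ?_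
      rw [hm]
      exact ih a (by omega)

/-- Elements all of whose sections at level `d` lie in `H`. -/
def wr (S : SS Γ X) (H : Subgroup Γ) (d : ℕ) : Subgroup Γ where
  carrier := {g | ∀ ξ, S.sr g ξ d ∈ H}
  one_mem' := fun ξ => by rw [sr_one]; exact H.one_mem
  mul_mem' := fun {a b} h h' ξ => by rw [sr_mul]; exact H.mul_mem (h _) (h' _)
  inv_mem' := fun {a} h ξ => by rw [← S.inv_ac a ξ, sr_inv]; exact H.inv_mem (h _)

omit [Fintype X] [Nonempty X] in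
theorem wr_mono {H : Subgroup Γ} (hH : S.Sim H) {d e : ℕ} (h : d ≤ e) : S.wr H d ≤ S.wr H e :=
  fun _ hg ξ => hH.le (hg ξ) h

omit [Fintype X] [Nonempty X] in
theorem wr_succ {H : Subgroup Γ} {d : ℕ} {g : Γ} :
    g ∈ S.wr H (d + 1) ↔ ∀ x, S.sc g x ∈ S.wr H d :=
  ⟨fun h x ξ => S.sr_cs g x ξ d ▸ h _, fun h ξ => S.sr_add g ξ 1 d ▸ h _ _⟩

omit [Fintype X] [Nonempty X] in
theorem wr_sim {H : Subgroup Γ} (hH : S.Sim H) (d : ℕ) : S.Sim (S.wr H d) :=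
  fun _ hg => wr_succ.mp (wr_mono hH d.le_succ hg)

/-- Elements that are finitary over `H`. -/
def fin (S : SS Γ X) (H : Subgroup Γ) (hH : S.Sim H) : Subgroup Γ where
  carrier := {g | ∃ d, g ∈ S.wr H d}
  one_mem' := ⟨0, one_mem _⟩
  mul_mem' := fun ⟨d, h⟩ ⟨e, h'⟩ => ⟨max d e,
    mul_mem (wr_mono hH (le_max_left _ _) h) (wr_mono hH (le_max_right _ _) h')⟩
  inv_mem' := fun ⟨d, h⟩ => ⟨d, inv_mem h⟩

/-- The hierarchy over `H`. -/
def Q (S : SS Γ X) (H : Subgroup Γ) (hH : S.Sim H) : ℕ → {B : Subgroup Γ // S.Sim B}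
  | 0 => ⟨S.fin H hH, fun _ ⟨d, h⟩ x => ⟨d, wr_sim hH d _ h x⟩⟩
  | j + 1 => ⟨S.nxt (Q S H hH j).1 (Q S H hH j).2, nxt_sim _ _⟩

variable {H : Subgroup Γ} {hH : S.Sim H}

theorem Q_cl : ∀ j, S.Cl (S.Q H hH j).1
  | 0 => fun g h => by
    choose d hd using h
    exact ⟨univ.sup d + 1, wr_succ.mpr fun x => wr_mono hH (le_sup (mem_univ x)) (hd x)⟩
  | j + 1 => nxt_cl _ (S.Q H hH j).2

theorem growth : ∀ j g, (S.reach g).Finite → g ∉ (S.Q H hH j).1 →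
    ∃ D, ∀ m : ℕ, m.choose j ≤ S.cnt (S.Q H hH 0).1 (D * m) g
  | 0, g, _, hg => ⟨0, fun m => by rw [Nat.choose_zero_right]; exact (Q_cl 0).cnt hg _⟩
  | j + 1, g, hf, hg => by
    obtain ⟨t, ht, ξ, η, p, h1, h2, h3⟩ := exists_cycle (hB := (S.Q H hH j).2) hf hg
    obtain ⟨D, hD⟩ := growth j _ (hf.subset
      ((S.reach_sub ⟨η, p, rfl⟩).trans (S.reach_sub ht))) h3
    have key : ∀ m : ℕ, m.choose (j + 1) ≤ S.cnt (S.Q H hH 0).1 ((D + p) * m) t := fun m => by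
      induction m with
      | zero => simp
      | succ m ih =>
        have a1 := two_le_tot (S := S) (S.cnt (S.Q H hH 0).1 ((D + p) * m + D)) p t h2
        rw [← cnt_add, h1, Nat.add_assoc, ← Nat.mul_succ] at a1
        have a2 := (Q_cl (hH := hH) 0).mono (Nat.le_add_right ((D + p) * m) D) t
        have a3 := (Q_cl (hH := hH) 0).mono (show D * m ≤ (D + p) * m + D by nlinarith)
          (S.sr t η p)
        have a4 := hD m
        rw [Nat.choose_succ_succ']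
        rw [Nat.succ_eq_add_one] at a1
        omega
    obtain ⟨ζ, r, rfl⟩ := ht
    refine ⟨D + p + r, fun m => ?_⟩
    rcases m with _ | m
    · simp
    · refine (key _).trans ((le_tot _ r g ζ).trans ?_)
      rw [← cnt_add]
      exact (Q_cl 0).mono (by nlinarith) g

theorem mem_Q_three {g : Γ} (hf : (S.reach g).Finite) {C : ℕ}
    (hC : ∀ n, S.cnt H n g ≤ C * (n + 1) ^ 2) : g ∈ (S.Q H hH 3).1 := by
  by_contra hg
  obtain ⟨D, hD⟩ := growth 3 g hf hg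
  set M := 6 * C * (3 * D + 1) ^ 2 + 1 with hM
  have h0 : (H : Set Γ) ⊆ (S.Q H hH 0).1 := fun h hh => ⟨0, fun _ => hh⟩
  have h1 := (hD (M + 2)).trans ((cnt_anti h0 _ g).trans (hC _))
  have hM1 : 1 ≤ M := by omega
  have h2 : M ^ 3 ≤ 6 * (M + 2).choose 3 := by
    have := Nat.pow_sub_le_descFactorial (M + 2) 3
    rw [Nat.descFactorial_eq_factorial_mul_choose] at this
    simpa [Nat.factorial] using this
  have h3 : D * (M + 2) + 1 ≤ (3 * D + 1) * M := by nlinarith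
  have h4 : M ^ 2 * M ≤ M ^ 2 * (6 * C * (3 * D + 1) ^ 2) := by
    have := Nat.mul_le_mul_left C (Nat.pow_le_pow_left h3 2)
    nlinarith
  have := Nat.le_of_mul_le_mul_left h4 (by positivity)
  omega

theorem linear_bound {T : Set Γ} (hT : T.Finite) (hS : S.Sim T) {j : ℕ}
    (h3 : ∀ t ∈ T, t ∈ (S.Q H hH (j + 2)).1) :
    ∃ C, ∀ t ∈ T, ∀ n, S.cnt (S.Q H hH j).1 n t ≤ C * (n + 1) := by
  have unif : ∀ i, ∃ C, ∀ t ∈ T, t ∈ (S.Q H hH (i + 1)).1 → ∀ n, S.cnt (S.Q H hH i).1 n t ≤ C :=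
    fun i => by
      have : ∀ t, ∃ C, t ∈ (S.Q H hH (i + 1)).1 → ∀ n, S.cnt (S.Q H hH i).1 n t ≤ C := fun t => by
        by_cases h : t ∈ (S.Q H hH (i + 1)).1
        · exact h.imp fun C hC _ => hC
        · exact ⟨0, fun h' => absurd h' h⟩
      choose C hC using this
      exact ⟨hT.toFinset.sup C, fun t ht h n =>
        (hC t h n).trans (le_sup (hT.mem_toFinset.mpr ht))⟩
  obtain ⟨B2, hB2⟩ := unif j
  obtain ⟨B3, hB3⟩ := unif (j + 1)
  have key : ∀ n, ∀ t ∈ T, S.cnt (S.Q H hH j).1 n t ≤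
      B2 + (Fintype.card X * B2 + 1) * (n + 1) * S.cnt (S.Q H hH (j + 1)).1 n t := fun n => by
    induction n with
    | zero =>
      intro t ht
      by_cases h : t ∈ (S.Q H hH (j + 1)).1
      · exact (hB2 t ht h 0).trans (Nat.le_add_right _ _)
      · have := (Q_cl (j + 1)).cnt h 0
        have := cnt_zero_le (S := S) (S.Q H hH j).1 t
        nlinarith [Nat.zero_le (Fintype.card X * B2 * S.cnt (S.Q H hH (j + 1)).1 0 t)]
    | succ n ih =>
      intro t ht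
      by_cases h : t ∈ (S.Q H hH (j + 1)).1
      · exact (hB2 t ht h _).trans (Nat.le_add_right _ _)
      · have a1 := (Q_cl (j + 1)).cnt h (n + 1)
        have a2 := sum_le_sum fun x (_ : x ∈ univ) => ih _ (hS t ht x)
        rw [sum_add_distrib, ← mul_sum, ← cnt_succ, ← cnt_succ, sum_const, card_univ,
          smul_eq_mul] at a2
        nlinarith [Nat.mul_le_mul_left (Fintype.card X * B2) a1]
  refine ⟨B2 + (Fintype.card X * B2 + 1) * B3, fun t ht n => (key n t ht).trans ?_⟩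
  have := Nat.mul_le_mul_left ((Fintype.card X * B2 + 1) * (n + 1)) (hB3 t ht (h3 t ht) n)
  nlinarith

end SS

end Pool.Agent.MP_622d34_al
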